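import Pool.Agent.Q222.CY.Meas
import Pool.Agent.Y322.IV.Cover

/-!
# From the coordinates to the phase space
-/

set_option autoImplicit false
set_option linter.unusedSectionVars false
set_option linter.deprecated false

open Set Function Topology Filter MeasureTheory
open scoped NNReal ENNReal

namespace Pool.Agent.Q222.CY

variable {E : Type} [NormedAddCommGroup E] [InnerProductSpace ℝ E] [FiniteDimensional ℝ E]

/-- The boundary is locally a Lipschitz graph. -/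
theorem lip_q {f : E → ℝ} (hf : ContDiff ℝ 2 f) {q ν : E} (hν : inner ℝ ν (gradient f q) ≠ 0) :
    ∃ U ∈ 𝓝 q, ∃ K : ℝ≥0, ∀ x ∈ U, ∀ y ∈ U, f x = 0 → f y = 0 →
      dist x y ≤ K * dist ((ℝ ∙ ν)ᗮ.orthogonalProjection x) ((ℝ ∙ ν)ᗮ.orthogonalProjection y) := by
  have hs : HasStrictFDerivAt f (fderiv ℝ f q) q :=
    (hf.contDiffAt).hasStrictFDerivAt (by norm_num)
  set G := gradient f q with hG
  set c : ℝ := inner ℝ ν G with hc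
  have hc0 : 0 < |c| := abs_pos.2 hν
  set ε : ℝ := |c| / (2 * (‖ν‖ + 1)) with hε
  have hε0 : 0 < ε := by positivity
  have hev := (Asymptotics.isLittleO_iff.1 hs.isLittleO) hε0
  rw [nhds_prod_eq] at hev
  obtain ⟨U, hU, hUU⟩ := (Filter.eventually_prod_self_iff'.1 hev)
  have hb : 0 ≤ 2 * (ε + ‖G‖) * ‖ν‖ / |c| + 1 := by positivity
  refine ⟨U, hU, ⟨2 * (ε + ‖G‖) * ‖ν‖ / |c| + 1, hb⟩, fun x hx y hy hfx hfy => ?_⟩
  have h1 := hUU x hx y hy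
  simp only [hfx, hfy, sub_zero, zero_sub, norm_neg] at h1
  rw [Pool.Agent.Y322.IV.fderiv_eq_inner, ← hG, Real.norm_eq_abs] at h1
  rw [dist_eq_norm, dist_eq_norm, ← map_sub]
  show ‖x - y‖ ≤ (2 * (ε + ‖G‖) * ‖ν‖ / |c| + 1) * ‖(ℝ ∙ ν)ᗮ.orthogonalProjection (x - y)‖
  set d := x - y with hd
  set z : E := ((ℝ ∙ ν)ᗮ.orthogonalProjection d : E) with hz
  have hzn : ‖(ℝ ∙ ν)ᗮ.orthogonalProjection d‖ = ‖z‖ := rfl
  rw [hzn]
  have h2 : d - z ∈ ((ℝ ∙ ν)ᗮ)ᗮ := Submodule.sub_starProjection_mem_orthogonal d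
  rw [Submodule.orthogonal_orthogonal, Submodule.mem_span_singleton] at h2
  obtain ⟨t, ht⟩ := h2
  have hd2 : d = t • ν + z := by rw [ht]; abel
  have h3 : inner ℝ d G = t * c + inner ℝ z G := by
    rw [hd2, inner_add_left, real_inner_smul_left]
  have h4 : ‖d‖ ≤ |t| * ‖ν‖ + ‖z‖ := by
    rw [hd2]
    calc ‖t • ν + z‖ ≤ ‖t • ν‖ + ‖z‖ := norm_add_le _ _
      _ = |t| * ‖ν‖ + ‖z‖ := by rw [norm_smul, Real.norm_eq_abs]
  have h5 : |inner ℝ z G| ≤ ‖z‖ * ‖G‖ := abs_real_inner_le_norm z G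
  have h6 : |t| * |c| ≤ ε * ‖d‖ + ‖z‖ * ‖G‖ := by
    rw [← abs_mul]
    have : t * c = inner ℝ d G - inner ℝ z G := by rw [h3]; ring
    rw [this]
    calc |inner ℝ d G - inner ℝ z G| ≤ |inner ℝ d G| + |inner ℝ z G| := abs_sub _ _
      _ ≤ ε * ‖d‖ + ‖z‖ * ‖G‖ := add_le_add h1 h5
  have h7 : ε * ‖ν‖ ≤ |c| / 2 := by
    rw [hε, div_mul_eq_mul_div, div_le_div_iff₀ (by positivity) (by norm_num)]
    nlinarith [norm_nonneg ν]
  have h8 : |t| * |c| ≤ 2 * (ε + ‖G‖) * ‖z‖ := by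
    have h9 : ε * ‖d‖ ≤ |t| * (|c| / 2) + ε * ‖z‖ := by
      calc ε * ‖d‖ ≤ ε * (|t| * ‖ν‖ + ‖z‖) := mul_le_mul_of_nonneg_left h4 hε0.le
        _ = |t| * (ε * ‖ν‖) + ε * ‖z‖ := by ring
        _ ≤ |t| * (|c| / 2) + ε * ‖z‖ := by
          have := mul_le_mul_of_nonneg_left h7 (abs_nonneg t)
          linarith
    linarith
  have h10 : |t| ≤ 2 * (ε + ‖G‖) * ‖z‖ / |c| := (le_div_iff₀ hc0).2 h8
  calc ‖d‖ ≤ |t| * ‖ν‖ + ‖z‖ := h4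
    _ ≤ 2 * (ε + ‖G‖) * ‖z‖ / |c| * ‖ν‖ + ‖z‖ := by
      have := mul_le_mul_of_nonneg_right h10 (norm_nonneg ν)
      linarith
    _ = (2 * (ε + ‖G‖) * ‖ν‖ / |c| + 1) * ‖z‖ := by ring

theorem vel_ne {V : Submodule ℝ E} {e : V} (he : e ≠ 0) (w : (ℝ ∙ e)ᗮ × Vᗮ) : vel e w ≠ 0 := by
  intro h0
  unfold vel at h0
  have h1 : inner ℝ (av e w.1) ((w.2 : Vᗮ) : E) = 0 :=
    (Submodule.mem_orthogonal V _).1 w.2.2 _ (Submodule.coe_mem _)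
  have h2 : inner ℝ (av e w.1) (av e w.1 + (w.2 : E)) = (0 : ℝ) := by rw [h0, inner_zero_right]
  rw [inner_add_right, h1, add_zero] at h2
  exact av_ne he w.1 (inner_self_eq_zero.1 h2)

section meas
variable [MeasurableSpace E] [BorelSpace E]

/-- The phase points with coordinates in a null set form a null set. -/
theorem null_phase {V : Submodule ℝ E} {e : V} (he : e ≠ 0) (ν : E) {f : E → ℝ}
    (hf : ContDiff ℝ 2 f) {s : ℝ} (hs : 0 ≤ s) (A : Set (((ℝ ∙ ν)ᗮ × (ℝ ∙ e)ᗮ) × Vᗮ))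
    (hA : μH[s] A = 0) :
    μH[s] {z : E × E | ∃ w : (ℝ ∙ e)ᗮ × Vᗮ, f z.1 = 0 ∧ inner ℝ ν (gradient f z.1) ≠ 0 ∧
      z.2 = ‖vel e w‖⁻¹ • vel e w ∧ (((ℝ ∙ ν)ᗮ.orthogonalProjection z.1, w.1), w.2) ∈ A} = 0 := by
  have h1 := Pool.Agent.Y322.IV.null_rel hs
    {z : (((ℝ ∙ ν)ᗮ × (ℝ ∙ e)ᗮ) × Vᗮ) × (E × ((ℝ ∙ e)ᗮ × Vᗮ)) | f z.2.1 = 0 ∧
      inner ℝ ν (gradient f z.2.1) ≠ 0 ∧
      z.1 = (((ℝ ∙ ν)ᗮ.orthogonalProjection z.2.1, z.2.2.1), z.2.2.2)} (fun z hz => ?_) A hA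
  · have h2 := Pool.Agent.Y322.IV.null_c1 hs
      (fun z : E × ((ℝ ∙ e)ᗮ × Vᗮ) => (z.1, ‖vel e z.2‖⁻¹ • vel e z.2)) univ (fun z _ => ?_) _ h1
    · refine measure_mono_null ?_ h2
      rintro ⟨q, v⟩ ⟨w, a1, a2, a3, a4⟩
      refine ⟨(q, w), ⟨⟨_, a4, a1, a2, rfl⟩, mem_univ _⟩, ?_⟩
      simp only at a3 ⊢
      rw [a3]
    · have hv : ContDiff ℝ 1 (fun z : E × ((ℝ ∙ e)ᗮ × Vᗮ) => vel e z.2) := by
        unfold vel av
        have k1 : ContDiff ℝ 1 (fun z : E × ((ℝ ∙ e)ᗮ × Vᗮ) => ((z.2.1 : V) : E)) :=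
          V.subtypeL.contDiff.comp ((ℝ ∙ e)ᗮ.subtypeL.contDiff.comp
            (contDiff_fst.comp contDiff_snd))
        have k2 : ContDiff ℝ 1 (fun z : E × ((ℝ ∙ e)ᗮ × Vᗮ) => ((z.2.2 : Vᗮ) : E)) :=
          Vᗮ.subtypeL.contDiff.comp (contDiff_snd.comp contDiff_snd)
        exact (contDiff_const.add k1).add k2
      have hne := vel_ne he z.2
      exact contDiffAt_fst.prodMk
        (((hv.contDiffAt.norm ℝ hne).inv (norm_ne_zero_iff.2 hne)).smul hv.contDiffAt)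
  · obtain ⟨hz1, hz2, hz3⟩ := hz
    obtain ⟨U, hU, K, hK⟩ := lip_q hf hz2
    refine ⟨univ ×ˢ (U ×ˢ univ), prod_mem_nhds Filter.univ_mem
      (prod_mem_nhds hU Filter.univ_mem), max K 1, ?_⟩
    rintro z1 ⟨⟨a1, a2, a3⟩, -, a4, -⟩ z2 ⟨⟨b1, b2, b3⟩, -, b4, -⟩
    have h5 := hK z1.2.1 a4 z2.2.1 b4 a1 b1
    rw [a3, b3]
    simp only [Prod.dist_eq]
    set P1 := dist ((ℝ ∙ ν)ᗮ.orthogonalProjection z1.2.1) ((ℝ ∙ ν)ᗮ.orthogonalProjection z2.2.1)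
    set Q1 := dist z1.2.2.1 z2.2.2.1
    set Q2 := dist z1.2.2.2 z2.2.2.2
    have hm : P1 ≤ max (max P1 Q1) Q2 := (le_max_left _ _).trans (le_max_left _ _)
    have hm1 : Q1 ≤ max (max P1 Q1) Q2 := (le_max_right _ _).trans (le_max_left _ _)
    have hm2 : Q2 ≤ max (max P1 Q1) Q2 := le_max_right _ _
    have hP0 : 0 ≤ max (max P1 Q1) Q2 := dist_nonneg.trans hm
    have hK1 : (1 : ℝ) ≤ (max K 1 : ℝ≥0) := by
      have : (1 : ℝ≥0) ≤ max K 1 := le_max_right _ _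
      exact_mod_cast this
    have hK2 : (K : ℝ) ≤ (max K 1 : ℝ≥0) := by
      have : K ≤ max K 1 := le_max_left _ _
      exact_mod_cast this
    refine max_le ?_ (max_le ?_ ?_)
    · calc dist z1.2.1 z2.2.1 ≤ K * P1 := h5
        _ ≤ (max K 1 : ℝ≥0) * max (max P1 Q1) Q2 := by
          refine mul_le_mul hK2 hm dist_nonneg (NNReal.coe_nonneg _)
    · calc Q1 ≤ 1 * max (max P1 Q1) Q2 := by rw [one_mul]; exact hm1
        _ ≤ _ := mul_le_mul_of_nonneg_right hK1 hP0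
    · calc Q2 ≤ 1 * max (max P1 Q1) Q2 := by rw [one_mul]; exact hm2
        _ ≤ _ := mul_le_mul_of_nonneg_right hK1 hP0

end meas

end Pool.Agent.Q222.CY
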