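import Mathlib

/-!
# Two general facts: null sets by scaling of one factor, countability by separation
-/

set_option autoImplicit false
set_option linter.unusedSectionVars false

open Set Function Topology Filter MeasureTheory

namespace Pool.Agent.Q222.CY

theorem countable_of_sep {A X : Type*} [TopologicalSpace X] [SecondCountableTopology X]
    (K : Set A) (F : A → X) (h : ∀ a ∈ K, ∃ U ∈ 𝓝 (F a), ∀ b ∈ K, F b ∈ U → b = a) :
    K.Countable := by
  have hex : ∀ a : A, ∃ B : Set X, a ∈ K → (B ∈ TopologicalSpace.countableBasis X ∧ F a ∈ B ∧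
      ∀ b ∈ K, F b ∈ B → b = a) := by
    intro a
    by_cases ha : a ∈ K
    · obtain ⟨U, hU, hU2⟩ := h a ha
      obtain ⟨B, hB, haB, hBU⟩ :=
        (TopologicalSpace.isBasis_countableBasis X).mem_nhds_iff.1 hU
      exact ⟨B, fun _ => ⟨hB, haB, fun b hb hbB => hU2 b hb (hBU hbB)⟩⟩
    · exact ⟨∅, fun h => absurd h ha⟩
  choose B hB using hex
  refine MapsTo.countable_of_injOn (f := B) (t := TopologicalSpace.countableBasis X)
    (fun a ha => (hB a ha).1) ?_ (TopologicalSpace.countable_countableBasis X)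
  intro a ha b hb hab
  have h1 : F b ∈ B a := by rw [hab]; exact (hB b hb).2.1
  exact ((hB a ha).2.2 b hb h1).symm

/-- The map `(x, y) ↦ (x, s y)`. -/
noncomputable def D (X Y : Type*) [AddCommGroup X] [Module ℝ X] [AddCommGroup Y] [Module ℝ Y]
    (s : ℝ) : X × Y →ₗ[ℝ] X × Y :=
  LinearMap.prodMap LinearMap.id (s • LinearMap.id)

theorem D_apply (X Y : Type*) [AddCommGroup X] [Module ℝ X] [AddCommGroup Y] [Module ℝ Y]
    (s : ℝ) (z : X × Y) : D X Y s z = (z.1, s • z.2) := rfl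

theorem det_D (X Y : Type*) [AddCommGroup X] [Module ℝ X] [AddCommGroup Y] [Module ℝ Y]
    {s : ℝ} (hs : s ≠ 0) : LinearMap.det (D X Y s) ≠ 0 := by
  intro h0
  have h1 : LinearMap.det (D X Y s) * LinearMap.det (D X Y s⁻¹) = 1 := by
    rw [← LinearMap.det_comp]
    have : (D X Y s) ∘ₗ (D X Y s⁻¹) = LinearMap.id := by
      ext z
      all_goals simp [D_apply, smul_smul, hs]
    rw [this, LinearMap.det_id]
  rw [h0, zero_mul] at h1
  exact zero_ne_one h1

theorem null_scaling {X Y : Type*} [NormedAddCommGroup X] [NormedSpace ℝ X]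
    [FiniteDimensional ℝ X] [MeasurableSpace X] [BorelSpace X] [NormedAddCommGroup Y]
    [NormedSpace ℝ Y] [FiniteDimensional ℝ Y] [MeasurableSpace Y] [BorelSpace Y]
    (μ : Measure (X × Y)) [μ.IsAddHaarMeasure] {S : Set (X × Y)} (hS : MeasurableSet S)
    (hc : ∀ x y, {s : ℝ | s ∈ Ioo (1 : ℝ) 2 ∧ (x, s • y) ∈ S}.Countable) : μ S = 0 := by
  haveI : SecondCountableTopology X := inferInstance
  haveI : SecondCountableTopology Y := inferInstance
  set T : Set ((X × Y) × ℝ) := {z | z.2 ∈ Ioo (1 : ℝ) 2 ∧ (z.1.1, z.2 • z.1.2) ∈ S} with hT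
  have hm : Measurable (fun z : (X × Y) × ℝ => (z.1.1, z.2 • z.1.2)) := by fun_prop
  have hTm : MeasurableSet T := by
    have h1 : MeasurableSet {z : (X × Y) × ℝ | z.2 ∈ Ioo (1 : ℝ) 2} :=
      measurable_snd measurableSet_Ioo
    exact h1.inter (hm hS)
  have h1 : (μ.prod volume) T = 0 := by
    rw [Measure.measure_prod_null hTm]
    refine Filter.Eventually.of_forall fun z => ?_
    exact (hc z.1 z.2).measure_zero _
  have h2 : ((volume : Measure ℝ).prod μ) (Prod.swap ⁻¹' T) = 0 := by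
    rw [← Measure.map_apply measurable_swap hTm, Measure.prod_swap]
    exact h1
  have h3 := Measure.measure_ae_null_of_prod_null h2
  have hex : ∃ s ∈ Ioo (1 : ℝ) 2, μ (Prod.mk s ⁻¹' (Prod.swap ⁻¹' T)) = 0 := by
    by_contra hcon
    push Not at hcon
    have hsub : Ioo (1 : ℝ) 2 ⊆ {s | ¬ (μ (Prod.mk s ⁻¹' (Prod.swap ⁻¹' T)) =
        (0 : ℝ → ENNReal) s)} := fun s hs => hcon s hs
    have h4 := measure_mono_null hsub (ae_iff.1 h3)
    rw [Real.volume_Ioo] at h4
    norm_num at h4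
  obtain ⟨s, hs, h0⟩ := hex
  have hs0 : s ≠ 0 := by
    have := hs.1
    intro h
    rw [h] at this
    linarith
  have heq : Prod.mk s ⁻¹' (Prod.swap ⁻¹' T) = D X Y s ⁻¹' S := by
    ext z
    simp only [mem_preimage, Prod.swap, hT, mem_setOf_eq, D_apply]
    exact ⟨fun h => h.2, fun h => ⟨hs, h⟩⟩
  rw [heq, Measure.addHaar_preimage_linearMap μ (det_D X Y hs0)] at h0
  rcases mul_eq_zero.1 h0 with h | h
  · exfalso
    rw [ENNReal.ofReal_eq_zero, abs_nonpos_iff] at h
    exact inv_ne_zero (det_D X Y hs0) h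
  · exact h

end Pool.Agent.Q222.CY
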