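import Mathlib
import Pool.Agent.Y322.IV.Lip

/-!
# Cylindrical mirrors: the normals and one reflection
-/

set_option autoImplicit false
set_option linter.unusedSectionVars false
set_option linter.deprecated false

open Set Function Topology Filter

namespace Pool.Agent.Q222.CY

variable {E : Type} [NormedAddCommGroup E] [InnerProductSpace ℝ E] [FiniteDimensional ℝ E]

/-- Near `q` the zero set of `f` is a cylinder with generators parallel to `V`. -/
def Cyl (V : Submodule ℝ E) (f : E → ℝ) (q : E) : Prop :=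
  ∃ r > 0, ∀ x ∈ Metric.ball q r, ∀ y ∈ Metric.ball q r, x - y ∈ V → f x = 0 → f y = 0

/-- Reflection of the velocity `u` at a mirror with normal `G`. -/
noncomputable def rf (G u : E) : E := u - (2 * inner ℝ u G / ‖G‖ ^ 2) • G

theorem isOpen_cyl (V : Submodule ℝ E) (f : E → ℝ) : IsOpen {q | Cyl V f q} := by
  rw [Metric.isOpen_iff]
  rintro q ⟨r, hr, h⟩
  refine ⟨r / 2, by positivity, fun q' hq' => ⟨r / 2, by positivity, fun x hx y hy => ?_⟩⟩
  rw [Metric.mem_ball] at hq' hx hy
  refine h x ?_ y ?_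
  · rw [Metric.mem_ball]; linarith [dist_triangle x q' q]
  · rw [Metric.mem_ball]; linarith [dist_triangle y q' q]

theorem hasDerivAt_line {f : E → ℝ} (hf : ContDiff ℝ 2 f) (q w : E) :
    HasDerivAt (fun t : ℝ => f (q + t • w)) (inner ℝ w (gradient f q)) 0 := by
  have h5 : HasDerivAt (fun τ : ℝ => q + τ • w) w 0 := by
    have := ((hasDerivAt_id (0 : ℝ)).smul_const w).const_add q
    simpa using this
  have h6 : HasFDerivAt f (fderiv ℝ f q) (q + (0 : ℝ) • w) := by
    rw [zero_smul, add_zero]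
    exact (hf.differentiable (by norm_num) _).hasFDerivAt
  have h7 := HasFDerivAt.comp_hasDerivAt (0 : ℝ) h6 h5
  rw [← Pool.Agent.Y322.IV.fderiv_eq_inner]
  exact h7

theorem grad_orth {V : Submodule ℝ E} {f : E → ℝ} (hf : ContDiff ℝ 2 f) {q : E}
    (hC : Cyl V f q) (hq : f q = 0) : gradient f q ∈ Vᗮ := by
  obtain ⟨r, hr, h⟩ := hC
  rw [Submodule.mem_orthogonal]
  intro w hw
  have h1 := hasDerivAt_line hf q w
  have h2 : (fun t : ℝ => f (q + t • w)) =ᶠ[𝓝 0] fun _ => (0 : ℝ) := by
    have hc : Tendsto (fun t : ℝ => q + t • w) (𝓝 0) (𝓝 q) := by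
      have : Continuous (fun t : ℝ => q + t • w) := by fun_prop
      have := this.tendsto 0
      simpa using this
    filter_upwards [hc (Metric.ball_mem_nhds q hr)] with t ht
    refine h q (Metric.mem_ball_self hr) _ ht ?_ hq
    have : q - (q + t • w) = (-t) • w := by rw [neg_smul]; abel
    rw [this]
    exact V.smul_mem _ hw
  have h3 := (hasDerivAt_const (0 : ℝ) (0 : ℝ)).congr_of_eventuallyEq h2
  exact h1.unique h3

/-- Parallel normals. -/
theorem grad_parallel {V : Submodule ℝ E} {f : E → ℝ} (hf : ContDiff ℝ 2 f) {q x : E} {r : ℝ}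
    (h : ∀ x ∈ Metric.ball q r, ∀ y ∈ Metric.ball q r, x - y ∈ V → f x = 0 → f y = 0)
    (hr : 0 < r) (hx : x ∈ Metric.ball q r) (hxq : x - q ∈ V) (hfq : f q = 0) (hfx : f x = 0)
    (hgq : gradient f q ≠ 0) (hgx : gradient f x ≠ 0) :
    ∃ l : ℝ, l ≠ 0 ∧ gradient f x = l • gradient f q := by
  have hs : ∀ y, HasStrictFDerivAt f (fderiv ℝ f y) y := fun y =>
    (hf.contDiffAt).hasStrictFDerivAt (by norm_num)
  set φ : E → ℝ := fun y => f (y + (q - x)) with hφ
  have hφ' : HasStrictFDerivAt φ (fderiv ℝ f q) x := by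
    have h1 : HasStrictFDerivAt f (fderiv ℝ f q) (x + (q - x)) := by
      have : x + (q - x) = q := by abel
      rw [this]; exact hs q
    have h2 : HasStrictFDerivAt (fun y : E => y + (q - x)) (ContinuousLinearMap.id ℝ E) x :=
      (hasStrictFDerivAt_id x).add_const _
    have h3 := h1.comp x h2
    simpa using h3
  have hext : IsLocalExtrOn φ {y | f y = f x} x := by
    left
    have hx0 : φ x = 0 := by
      have : x + (q - x) = q := by abel
      simp only [hφ, this, hfq]
    have hev : ∀ᶠ y in 𝓝 x, y ∈ Metric.ball q r ∧ y + (q - x) ∈ Metric.ball q r := by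
      have h1 : ∀ᶠ y in 𝓝 x, y ∈ Metric.ball q r := Metric.isOpen_ball.mem_nhds hx
      have h2 : Tendsto (fun y : E => y + (q - x)) (𝓝 x) (𝓝 q) := by
        have hcc : Continuous (fun y : E => y + (q - x)) := by fun_prop
        have := hcc.tendsto x
        have e : x + (q - x) = q := by abel
        rwa [e] at this
      exact h1.and (h2 (Metric.ball_mem_nhds q hr))
    show ∀ᶠ y in 𝓝[{y | f y = f x}] x, φ x ≤ φ y
    filter_upwards [mem_nhdsWithin_of_mem_nhds hev, self_mem_nhdsWithin] with y hy hy2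
    rw [hx0]
    have hy3 : f y = 0 := by
      have : f y = f x := hy2
      rw [this, hfx]
    have : f (y + (q - x)) = 0 := by
      refine h y hy.1 _ hy.2 ?_ hy3
      have e : y - (y + (q - x)) = x - q := by abel
      rw [e]; exact hxq
    exact this.ge
  obtain ⟨a, b, hab, hz⟩ := hext.exists_multipliers_of_hasStrictFDerivAt_1d (hs x) hφ'
  have hG : ∀ w : E, a * inner ℝ w (gradient f x) + b * inner ℝ w (gradient f q) = 0 := by
    intro w
    have := congrArg (fun L : StrongDual ℝ E => L w) hz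
    simp only [ContinuousLinearMap.add_apply, ContinuousLinearMap.smul_apply,
      ContinuousLinearMap.zero_apply, smul_eq_mul] at this
    rw [Pool.Agent.Y322.IV.fderiv_eq_inner, Pool.Agent.Y322.IV.fderiv_eq_inner] at this
    exact this
  have hG2 : a • gradient f x + b • gradient f q = 0 := by
    refine ext_inner_left ℝ fun w => ?_
    rw [inner_add_right, inner_smul_right, inner_smul_right, inner_zero_right]
    exact hG w
  have ha : a ≠ 0 := by
    intro ha
    rw [ha, zero_smul, zero_add, smul_eq_zero] at hG2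
    rcases hG2 with h | h
    · exact hab (by rw [ha, h]; rfl)
    · exact hgq h
  have hb : b ≠ 0 := by
    intro hb
    rw [hb, zero_smul, add_zero, smul_eq_zero] at hG2
    rcases hG2 with h | h
    · exact ha h
    · exact hgx h
  refine ⟨-(b / a), neg_ne_zero.2 (div_ne_zero hb ha), ?_⟩
  have h4 : a • gradient f x = -(b • gradient f q) := eq_neg_of_add_eq_zero_left hG2
  have h5 : gradient f x = a⁻¹ • (a • gradient f x) := by rw [smul_smul, inv_mul_cancel₀ ha, one_smul]
  rw [h5, h4, ← neg_smul, smul_smul]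
  congr 1
  field_simp

theorem rf_smul {l : ℝ} (hl : l ≠ 0) (G u : E) : rf (l • G) u = rf G u := by
  unfold rf
  by_cases hG : G = 0
  · simp [hG]
  have h1 : ‖G‖ ≠ 0 := norm_ne_zero_iff.2 hG
  rw [inner_smul_right, norm_smul, smul_smul]
  congr 2
  rw [mul_pow, Real.norm_eq_abs, sq_abs]
  field_simp

theorem rf_add {G x y : E} (hy : inner ℝ y G = 0) (α β : ℝ) :
    rf G (α • x + β • y) = α • rf G x + β • y := by
  unfold rf
  rw [inner_add_left, real_inner_smul_left, real_inner_smul_left, hy, mul_zero, add_zero, smul_sub,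
    smul_smul]
  have : 2 * (α * inner ℝ x G) / ‖G‖ ^ 2 = α * (2 * inner ℝ x G / ‖G‖ ^ 2) := by ring
  rw [this]
  abel

theorem rf_mem {W : Submodule ℝ E} {G x : E} (hG : G ∈ W) (hx : x ∈ W) : rf G x ∈ W :=
  W.sub_mem hx (W.smul_mem _ hG)

theorem rf_rf {G : E} (hG : G ≠ 0) (x : E) : rf G (rf G x) = x := by
  unfold rf
  have h1 : ‖G‖ ≠ 0 := norm_ne_zero_iff.2 hG
  have h2 : inner ℝ (x - (2 * inner ℝ x G / ‖G‖ ^ 2) • G) G = -inner ℝ x G := by
    rw [inner_sub_left, real_inner_smul_left, real_inner_self_eq_norm_sq]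
    field_simp
    ring
  rw [h2, sub_sub, ← add_smul]
  have : 2 * inner ℝ x G / ‖G‖ ^ 2 + 2 * -inner ℝ x G / ‖G‖ ^ 2 = 0 := by ring
  rw [this, zero_smul, sub_zero]

theorem rf_ne {G : E} (hG : G ≠ 0) {x : E} (hx : x ≠ 0) : rf G x ≠ 0 := by
  intro h
  apply hx
  rw [← rf_rf hG x, h]
  simp [rf]

/-- One reflection at a cylindrical mirror: comparison of two trajectories. -/
theorem step {W : Submodule ℝ E} {f : E → ℝ} (hf : ContDiff ℝ 2 f) {q x y : E}
    (hC : Cyl Wᗮ f q) (hq : f q = 0) (hx : x ∈ W) (hy : y ∈ Wᗮ)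
    (hi : inner ℝ (x + y) (gradient f q) ≠ 0) :
    gradient f q ∈ W ∧ rf (gradient f q) (x + y) = rf (gradient f q) x + y ∧
    ∃ δ > 0, ∀ (c p : E) (θ' θ α β : ℝ), q = c + θ' • (x + y) → p = c + θ • (α • x + β • y) →
      f p = 0 → gradient f p ≠ 0 → dist p q < δ →
      α * θ = θ' ∧ rf (gradient f p) (α • x + β • y) = α • rf (gradient f q) x + β • y := by
  have hgW : gradient f q ∈ W := by
    have := grad_orth hf hC hq
    rwa [Submodule.orthogonal_orthogonal] at this
  have hyG : inner ℝ y (gradient f q) = 0 :=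
    (Submodule.mem_orthogonal' W y).1 hy _ hgW
  have hxG : inner ℝ x (gradient f q) ≠ 0 := by
    rwa [inner_add_left, hyG, add_zero] at hi
  have hgq : gradient f q ≠ 0 := by
    intro h0
    rw [h0, inner_zero_right] at hxG
    exact hxG rfl
  have hx0 : x ≠ 0 := by
    intro h0
    rw [h0, inner_zero_left] at hxG
    exact hxG rfl
  have hnx : 0 < ‖x‖ := norm_pos_iff.2 hx0
  refine ⟨hgW, ?_, ?_⟩
  · have := rf_add (x := x) hyG 1 1
    simpa using this
  obtain ⟨r, hr, h⟩ := hC
  have hd := hasDerivAt_line hf q x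
  have hev := hd.eventually_ne hxG (c := 0)
  rw [eventually_nhdsWithin_iff, Metric.eventually_nhds_iff] at hev
  obtain ⟨ε, hε, hev⟩ := hev
  refine ⟨min r (ε * ‖x‖), lt_min hr (mul_pos hε hnx), ?_⟩
  intro c p θ' θ α β hqc hpc hfp hgp hdist
  have hdr : dist p q < r := lt_of_lt_of_le hdist (min_le_left _ _)
  have hde : dist p q < ε * ‖x‖ := lt_of_lt_of_le hdist (min_le_right _ _)
  have hpq : p - q = (α * θ - θ') • x + (β * θ - θ') • y := by
    rw [hqc, hpc]
    module
  have hxy : inner ℝ x y = 0 := (Submodule.mem_orthogonal W y).1 hy x hx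
  have hnorm : ‖p - q‖ ^ 2 = ‖(α * θ - θ') • x‖ ^ 2 + ‖(β * θ - θ') • y‖ ^ 2 := by
    rw [hpq, ← sq_abs ‖_ + _‖, abs_norm]
    have h2 : inner ℝ ((α * θ - θ') • x) ((β * θ - θ') • y) = 0 := by
      rw [real_inner_smul_left, inner_smul_right, hxy, mul_zero, mul_zero]
    have := norm_add_sq_real ((α * θ - θ') • x) ((β * θ - θ') • y)
    rw [h2] at this
    linarith
  have hle : ‖(α * θ - θ') • x‖ ≤ ‖p - q‖ := by
    have h0 : ‖(α * θ - θ') • x‖ ^ 2 ≤ ‖p - q‖ ^ 2 := by
      rw [hnorm]; nlinarith [sq_nonneg ‖(β * θ - θ') • y‖]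
    exact le_of_sq_le_sq h0 (norm_nonneg _)
  have hp1 : q + (α * θ - θ') • x ∈ Metric.ball q r := by
    rw [Metric.mem_ball, dist_eq_norm]
    have : q + (α * θ - θ') • x - q = (α * θ - θ') • x := by abel
    rw [this]
    rw [dist_eq_norm] at hdr
    linarith
  have hf1 : f (q + (α * θ - θ') • x) = 0 := by
    refine h p (Metric.mem_ball.2 hdr) _ hp1 ?_ hfp
    have : p - (q + (α * θ - θ') • x) = (β * θ - θ') • y := by
      have : p - (q + (α * θ - θ') • x) = (p - q) - (α * θ - θ') • x := by abel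
      rw [this, hpq]; abel
    rw [this]
    exact Submodule.smul_mem _ _ hy
  have hkey : α * θ - θ' = 0 := by
    by_contra hne
    refine hev ?_ hne hf1
    rw [Real.dist_eq, sub_zero]
    rw [norm_smul, Real.norm_eq_abs] at hle
    rw [dist_eq_norm] at hde
    have : |α * θ - θ'| * ‖x‖ < ε * ‖x‖ := lt_of_le_of_lt hle hde
    exact lt_of_mul_lt_mul_right this hnx.le
  refine ⟨by linarith, ?_⟩
  have hpqV : p - q ∈ Wᗮ := by
    rw [hpq, hkey, zero_smul, zero_add]
    exact Submodule.smul_mem _ _ hy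
  obtain ⟨l, hl, hgl⟩ := grad_parallel hf h hr (Metric.mem_ball.2 hdr) hpqV hq hfp hgq hgp
  rw [hgl, rf_smul hl, rf_add hyG]

end Pool.Agent.Q222.CY
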