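import Pool.Agent.Q222.CY.Chart

/-!
# The returning trajectories with cylindrical mirrors form a null set
-/

set_option autoImplicit false
set_option linter.unusedSectionVars false
set_option linter.deprecated false

open Set Function Topology Filter MeasureTheory
open scoped NNReal ENNReal

namespace Pool.Agent.Q222.CY

open Pool.Agent.Y322.IV

variable {E : Type} [NormedAddCommGroup E] [InnerProductSpace ℝ E] [FiniteDimensional ℝ E]

/-- The phase points whose trajectory comes back to its first bounce point, all the bounces in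
between being at points where the boundary is cylindrical along `V` or along `Vᗮ`. -/
def LoopC (V : Submodule ℝ E) (f : E → ℝ) : Set (E × E) :=
  {x | ∃ (n : ℕ) (p u : ℕ → E), 1 ≤ n ∧ Traj f n p u ∧ p 0 = x.1 ∧ u 0 = x.2 ∧ p n = p 0 ∧
    ∀ k, 0 < k → k < n → Cyl V f (p k) ∨ Cyl Vᗮ f (p k)}

theorem LoopC_symm (V : Submodule ℝ E) (f : E → ℝ) : LoopC V f ⊆ LoopC Vᗮ f := by
  rintro x ⟨n, p, u, h1, h2, h3, h4, h5, h6⟩
  refine ⟨n, p, u, h1, h2, h3, h4, h5, fun k hk hkn => ?_⟩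
  rw [Submodule.orthogonal_orthogonal]
  exact (h6 k hk hkn).symm

theorem rf_smul_right (l : ℝ) (G u : E) : rf G (l • u) = l • rf G u := by
  have := rf_add (G := G) (x := u) (y := 0) (inner_zero_left _) l 0
  simpa using this

/-- A trajectory in coordinates. -/
theorem st_of_traj {f : E → ℝ} {n : ℕ} {p u : ℕ → E} (H : Traj f n p u) {κ : ℝ} (hκ : 0 < κ)
    {t : ℕ → ℝ} (ht : ∀ k < n, p (k + 1) = p k + t k • u k) {τ : ℕ → ℝ}
    (hτ : ∀ k < n, τ k = κ * t k) :
    ∀ k ≤ n, st f (p 0) (κ⁻¹ • u 0) τ k = (p k, κ⁻¹ • u k) := by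
  intro k
  induction k with
  | zero => exact fun _ => rfl
  | succ k ih =>
    intro hk
    have i1 := ih (by omega)
    have e1 : p k + τ k • κ⁻¹ • u k = p (k + 1) := by
      rw [ht k hk, hτ k hk, smul_smul]
      congr 2
      field_simp
    simp only [st]
    rw [i1]
    simp only
    rw [e1, rf_smul_right]
    congr 2
    exact ((H.2 k hk).2).symm

/-- A trajectory which returns belongs to one of the sets of coordinates. -/
theorem mem_TS {V : Submodule ℝ E} {e : V} {f : E → ℝ} {n : ℕ} {p u : ℕ → E}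
    (H : Traj f n p u) (hret : p n = p 0)
    (hC : ∀ k, 0 < k → k < n → Cyl V f (p k) ∨ Cyl Vᗮ f (p k)) {c : E} {r : ℝ}
    (hc : p 0 ∈ Metric.ball c r) {κ : ℝ} (hκ : 0 < κ) {w : (ℝ ∙ e)ᗮ × Vᗮ}
    (hw : vel e w = κ⁻¹ • u 0) (hw2 : w.2 ≠ 0) : ∃ τ, (p 0, w, τ) ∈ TS e f c r n := by
  have hex : ∀ k : ℕ, ∃ t : ℝ, k < n → (0 < t ∧ p (k + 1) = p k + t • u k ∧
      ∀ s ∈ Ioo (0 : ℝ) t, f (p k + s • u k) < 0) := by
    intro k
    by_cases hk : k < n
    · obtain ⟨t, h1, h2, h3⟩ := (H.2 k hk).1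
      exact ⟨t, fun _ => ⟨h1, h2, h3⟩⟩
    · exact ⟨0, fun h => absurd h hk⟩
  choose t ht using hex
  set τ : ℕ → ℝ := fun k => if k < n then κ * t k else 0 with hτdef
  have hτ : ∀ k < n, τ k = κ * t k := fun k hk => by simp [hτdef, hk]
  have hst := st_of_traj H hκ (fun k hk => (ht k hk).2.1) hτ
  refine ⟨τ, hc, (H.1 0 (Nat.zero_le n)).1, hw2, ?_, ?_, ?_, ?_⟩
  · intro k hk
    simp only [hw]
    rw [hst (k + 1) hk, hst k hk.le]
    refine ⟨(H.1 (k + 1) hk).1, ?_, ?_, ?_⟩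
    · rw [hτ k hk]; exact mul_pos hκ (ht k hk).1
    · rw [real_inner_smul_left]
      exact mul_pos (inv_pos.2 hκ) (H.incoming_pos hk)
    · intro r hr0 hr1
      have e1 : p k + ((r : ℝ) * τ k) • κ⁻¹ • u k = p k + ((r : ℝ) * t k) • u k := by
        rw [hτ k hk, smul_smul]
        congr 2
        field_simp
      simp only
      rw [e1]
      rcases eq_or_lt_of_le hr0 with h0 | h0
      · rw [← h0]
        simp only [Rat.cast_zero, zero_mul, zero_smul, add_zero]
        exact (H.1 k hk.le).1.le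
      rcases eq_or_lt_of_le hr1 with h1 | h1
      · rw [h1]
        simp only [Rat.cast_one, one_mul]
        rw [← (ht k hk).2.1]
        exact (H.1 (k + 1) hk).1.le
      · have h0' : (0 : ℝ) < r := by exact_mod_cast h0
        have h1' : (r : ℝ) < 1 := by exact_mod_cast h1
        refine ((ht k hk).2.2 _ ⟨mul_pos h0' (ht k hk).1, ?_⟩).le
        have := (ht k hk).1
        nlinarith
  · intro k hk hkn
    simp only [hw]
    rw [hst k hkn.le]
    exact hC k hk hkn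
  · simp only [hw]
    rw [hst n le_rfl]
    exact hret
  · intro k hk
    simp [hτdef, not_lt.2 hk]

/-- Small balls with rational data. -/
theorem exists_ball {O : Set E} (hO : IsOpen O) {q : E} (hq : q ∈ O) :
    ∃ i m : ℕ, q ∈ Metric.ball (TopologicalSpace.denseSeq E i) (1 / ((m : ℝ) + 1)) ∧
      Metric.ball (TopologicalSpace.denseSeq E i) (1 / ((m : ℝ) + 1)) ⊆ O := by
  obtain ⟨ε, hε, hb⟩ := Metric.isOpen_iff.1 hO q hq
  obtain ⟨m, hm⟩ := exists_nat_one_div_lt (half_pos hε)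
  have hpos : 0 < 1 / ((m : ℝ) + 1) := by positivity
  obtain ⟨i, hi⟩ := (TopologicalSpace.denseRange_denseSeq E).exists_dist_lt q hpos
  refine ⟨i, m, Metric.mem_ball.2 hi, fun x hx => hb ?_⟩
  rw [Metric.mem_ball] at hx ⊢
  have := dist_triangle x (TopologicalSpace.denseSeq E i) q
  rw [dist_comm (TopologicalSpace.denseSeq E i) q] at this
  linarith

section meas
variable [MeasurableSpace E] [BorelSpace E]

theorem haar_co {d : ℕ} (hE : Module.finrank ℝ E = d) {V : Submodule ℝ E} {e : V} {ν : E}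
    (he : e ≠ 0) (hν : ν ≠ 0) :
    Measure.IsAddHaarMeasure (G := ((ℝ ∙ ν)ᗮ × (ℝ ∙ e)ᗮ) × Vᗮ)
      (μH[((2 * d - 2 : ℕ) : ℝ)] : Measure (((ℝ ∙ ν)ᗮ × (ℝ ∙ e)ᗮ) × Vᗮ)) := by
  have h1 := Submodule.finrank_add_finrank_orthogonal (K := (ℝ ∙ ν))
  rw [finrank_span_singleton hν, hE] at h1
  have h2 := Submodule.finrank_add_finrank_orthogonal (K := (ℝ ∙ e))
  rw [finrank_span_singleton he] at h2
  have h3 := Submodule.finrank_add_finrank_orthogonal (K := V)
  rw [hE] at h3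
  have h4 : Module.finrank ℝ (((ℝ ∙ ν)ᗮ × (ℝ ∙ e)ᗮ) × Vᗮ) = 2 * d - 2 := by
    rw [Module.finrank_prod, Module.finrank_prod]
    omega
  rw [← h4]
  exact isAddHaarMeasure_hausdorffMeasure

/-- The returning trajectories with positive velocity in the direction `e`. -/
theorem null_e {f : E → ℝ} (hf : ContDiff ℝ 2 f) {d : ℕ} (hE : Module.finrank ℝ E = d)
    {V : Submodule ℝ E} (hV : Vᗮ ≠ ⊥) (e : V) (he : ‖e‖ = 1) :
    μH[((2 * d - 2 : ℕ) : ℝ)] {x | x ∈ LoopC V f ∧ 0 < inner ℝ (e : E) x.2} = 0 := by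
  have hs : (0 : ℝ) ≤ ((2 * d - 2 : ℕ) : ℝ) := Nat.cast_nonneg _
  have he0 : e ≠ 0 := by
    intro h
    rw [h, norm_zero] at he
    exact zero_ne_one he
  -- the index set: coordinate direction, ball, length
  set b := stdOrthonormalBasis ℝ E with hb
  set cc : ℕ → E := TopologicalSpace.denseSeq E with hcc
  set N : (Fin (Module.finrank ℝ E) × ℕ × ℕ × ℕ) → Set (E × E) := fun j =>
    {z | (∀ x ∈ Metric.ball (cc j.2.1) (1 / ((j.2.2.1 : ℝ) + 1)), inner ℝ (b j.1) (gradient f x) ≠ 0)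
      ∧ 1 ≤ j.2.2.2 ∧ ∃ w : (ℝ ∙ e)ᗮ × Vᗮ, f z.1 = 0 ∧ inner ℝ (b j.1) (gradient f z.1) ≠ 0 ∧
      z.2 = ‖vel e w‖⁻¹ • vel e w ∧
      (((ℝ ∙ (b j.1))ᗮ.orthogonalProjection z.1, w.1), w.2) ∈
        (co e (b j.1) '' (TS e f (cc j.2.1) (1 / ((j.2.2.1 : ℝ) + 1)) j.2.2.2) ∪
          {x | x.2 = 0})} with hN
  have hcov : {x | x ∈ LoopC V f ∧ 0 < inner ℝ (e : E) x.2} ⊆ ⋃ j, N j := by
    rintro ⟨q, v⟩ ⟨⟨n, p, u, hn, H, hp, hu, hret, hC⟩, hpos⟩
    simp only at hp hu hpos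
    have hg := H.grad_ne (Nat.zero_le n)
    have hex : ∃ i, inner ℝ (b i) (gradient f (p 0)) ≠ 0 := by
      by_contra hcon
      push Not at hcon
      apply hg
      rw [← b.sum_repr' (gradient f (p 0))]
      exact Finset.sum_eq_zero fun i _ => by rw [hcon i, zero_smul]
    obtain ⟨i, hi⟩ := hex
    have hgc : Continuous (gradient f) := (contDiff_gradient hf).continuous
    have hO : IsOpen {x : E | inner ℝ (b i) (gradient f x) ≠ 0} :=
      isOpen_ne_fun (continuous_const.inner hgc) continuous_const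
    obtain ⟨i', m, hb1, hb2⟩ := exists_ball hO (q := p 0) hi
    refine mem_iUnion.2 ⟨(i, i', m, n), ?_⟩
    -- the coordinates of the velocity
    set κ : ℝ := inner ℝ (e : E) v with hκ
    have hκ0 : κ ≠ 0 := hpos.ne'
    set vV : V := V.orthogonalProjection v with hvV
    have hvsub : v - (vV : E) ∈ Vᗮ := Submodule.sub_starProjection_mem_orthogonal v
    have hinner : inner ℝ e vV = κ := by
      have h1 : inner ℝ (e : E) (v - (vV : E)) = 0 :=
        (Submodule.mem_orthogonal V _).1 hvsub _ e.2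
      rw [inner_sub_right] at h1
      rw [hκ]
      have h2 : inner ℝ e vV = inner ℝ (e : E) (vV : E) := rfl
      rw [h2]
      linarith
    have hw1 : κ⁻¹ • vV - e ∈ (ℝ ∙ e)ᗮ := by
      rw [Submodule.mem_orthogonal_singleton_iff_inner_right, inner_sub_right, inner_smul_right,
        hinner, real_inner_self_eq_norm_sq, he, inv_mul_cancel₀ hκ0]
      norm_num
    set w : (ℝ ∙ e)ᗮ × Vᗮ := (⟨κ⁻¹ • vV - e, hw1⟩, κ⁻¹ • ⟨v - (vV : E), hvsub⟩) with hw
    have hvel : vel e w = κ⁻¹ • v := by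
      simp only [vel, av, hw]
      push_cast
      rw [smul_sub]
      abel
    have hnv : ‖v‖ = 1 := by rw [← hu]; exact (H.1 0 (Nat.zero_le n)).2.1
    have hvel2 : v = ‖vel e w‖⁻¹ • vel e w := by
      rw [hvel, norm_smul, norm_inv, Real.norm_eq_abs, abs_of_pos hpos, hnv, mul_one, inv_inv,
        smul_smul, mul_inv_cancel₀ hκ0, one_smul]
    refine ⟨fun x hx => hb2 hx, hn, w, ?_, ?_, hvel2, ?_⟩
    · simp only; rw [← hp]; exact (H.1 0 (Nat.zero_le n)).1
    · simp only; rw [← hp]; exact hi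
    · by_cases hw2 : w.2 = 0
      · exact Or.inr hw2
      · left
        obtain ⟨τ, hτ⟩ := mem_TS (e := e) (w := w) H hret hC hb1 hpos (by rw [hvel, hu]) hw2
        refine ⟨(p 0, w, τ), hτ, ?_⟩
        simp only [co]
        rw [hp]
  refine measure_mono_null hcov (measure_iUnion_null fun j => ?_)
  by_cases hj : (∀ x ∈ Metric.ball (cc j.2.1) (1 / ((j.2.2.1 : ℝ) + 1)),
      inner ℝ (b j.1) (gradient f x) ≠ 0) ∧ 1 ≤ j.2.2.2
  · have hν : b j.1 ≠ 0 := by
      have : ‖b j.1‖ = 1 := b.norm_eq_one _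
      intro h0
      rw [h0, norm_zero] at this
      exact zero_ne_one this
    have hH := haar_co hE he0 hν
    have hA : μH[((2 * d - 2 : ℕ) : ℝ)] (co e (b j.1) ''
        (TS e f (cc j.2.1) (1 / ((j.2.2.1 : ℝ) + 1)) j.2.2.2) ∪
          {x : ((ℝ ∙ (b j.1))ᗮ × (ℝ ∙ e)ᗮ) × Vᗮ | x.2 = 0}) = 0 := by
      refine measure_union_null (null_co he0 hf hj.2 hj.1 _) ?_
      have h5 := Measure.addHaar_submodule
        (μH[((2 * d - 2 : ℕ) : ℝ)] : Measure (((ℝ ∙ (b j.1))ᗮ × (ℝ ∙ e)ᗮ) × Vᗮ))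
        (LinearMap.ker (LinearMap.snd ℝ ((ℝ ∙ (b j.1))ᗮ × (ℝ ∙ e)ᗮ) Vᗮ)) (by
          intro htop
          apply hV
          rw [Submodule.eq_bot_iff]
          intro x hx
          have h6 : (((0, 0), ⟨x, hx⟩) : ((ℝ ∙ (b j.1))ᗮ × (ℝ ∙ e)ᗮ) × Vᗮ) ∈
              LinearMap.ker (LinearMap.snd ℝ ((ℝ ∙ (b j.1))ᗮ × (ℝ ∙ e)ᗮ) Vᗮ) := by
            rw [htop]; trivial
          rw [LinearMap.mem_ker] at h6
          exact congrArg Subtype.val h6)
      refine measure_mono_null (fun x hx => ?_) h5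
      exact hx
    refine measure_mono_null ?_ (null_phase he0 (b j.1) hf hs _ hA)
    rintro z ⟨-, -, hz⟩
    exact hz
  · refine measure_mono_null (fun z hz => ?_) measure_empty
    exact hj ⟨hz.1, hz.2.1⟩

/-- The returning trajectories form a null set. -/
theorem null_LoopC {f : E → ℝ} (hf : ContDiff ℝ 2 f) {d : ℕ} (hE : Module.finrank ℝ E = d)
    {V : Submodule ℝ E} (hV : V ≠ ⊥) (hV' : V ≠ ⊤) :
    μH[((2 * d - 2 : ℕ) : ℝ)] (LoopC V f) = 0 := by
  have hV2 : Vᗮ ≠ ⊥ := fun h => hV' ((Submodule.orthogonal_eq_bot_iff).1 h)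
  have hV3 : (Vᗮ)ᗮ ≠ ⊥ := by rw [Submodule.orthogonal_orthogonal]; exact hV
  have key : ∀ W : Submodule ℝ E, Wᗮ ≠ ⊥ →
      μH[((2 * d - 2 : ℕ) : ℝ)] {x | x ∈ LoopC W f ∧ x.2 ∉ Wᗮ} = 0 := by
    intro W hW
    refine measure_mono_null ?_ (measure_iUnion_null fun i :
      Fin (Module.finrank ℝ W) × Bool => null_e hf hE hW (dirs W i) (dirs_norm i))
    rintro ⟨q, v⟩ ⟨hx, hv⟩
    have hne : W.orthogonalProjection v ≠ 0 := by
      intro h0
      exact hv ((Submodule.orthogonalProjection_eq_zero_iff).1 h0)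
    obtain ⟨i, hi⟩ := exists_dir hne
    refine mem_iUnion.2 ⟨i, hx, ?_⟩
    have h1 : inner ℝ ((dirs W i : W) : E) (v - (W.orthogonalProjection v : E)) = 0 :=
      (Submodule.mem_orthogonal W _).1 (Submodule.sub_starProjection_mem_orthogonal v) _
        (dirs W i).2
    rw [inner_sub_right] at h1
    have h2 : inner ℝ (dirs W i) (W.orthogonalProjection v) =
      inner ℝ ((dirs W i : W) : E) (W.orthogonalProjection v : E) := rfl
    rw [h2] at hi
    show 0 < inner ℝ ((dirs W i : W) : E) v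
    linarith
  refine measure_mono_null ?_ (measure_union_null (key V hV2) (key Vᗮ hV3))
  rintro ⟨q, v⟩ hx
  by_cases hv : v ∈ Vᗮ
  · right
    refine ⟨LoopC_symm V f hx, fun hv2 => ?_⟩
    have h3 : v = 0 := by
      have := (Submodule.mem_orthogonal Vᗮ v).1 hv2 v hv
      exact inner_self_eq_zero.1 this
    obtain ⟨n, p, u, -, H, -, hu, -⟩ := hx
    have h4 := (H.1 0 (Nat.zero_le n)).2.1
    rw [hu] at h4
    simp only at h4
    rw [h3, norm_zero] at h4
    exact zero_ne_one h4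
  · exact Or.inl ⟨hx, hv⟩

end meas

end Pool.Agent.Q222.CY
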