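import Pool.Agent.Q222.CY.Traj
import Pool.Agent.Q222.CY.Fub

/-!
# The set of the returning trajectories in coordinates is measurable and null
-/

set_option autoImplicit false
set_option linter.unusedSectionVars false
set_option linter.deprecated false

open Set Function Topology Filter MeasureTheory

namespace Pool.Agent.Q222.CY

variable {E : Type} [NormedAddCommGroup E] [InnerProductSpace ℝ E] [FiniteDimensional ℝ E]

/-- The component in `V` of the velocity. -/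
def av {V : Submodule ℝ E} (e : V) (w : (ℝ ∙ e)ᗮ) : E := ((e + (w : V) : V) : E)

/-- The velocity. -/
def vel {V : Submodule ℝ E} (e : V) (w : (ℝ ∙ e)ᗮ × Vᗮ) : E := av e w.1 + (w.2 : E)

/-- Closed version of the returning trajectories. -/
def TS {V : Submodule ℝ E} (e : V) (f : E → ℝ) (c : E) (r : ℝ) (n : ℕ) :
    Set (E × ((ℝ ∙ e)ᗮ × Vᗮ) × (ℕ → ℝ)) :=
  {ω | ω.1 ∈ Metric.ball c r ∧ f ω.1 = 0 ∧ ω.2.1.2 ≠ 0 ∧
    (∀ k, k < n → f (st f ω.1 (vel e ω.2.1) ω.2.2 (k + 1)).1 = 0 ∧ 0 < ω.2.2 k ∧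
      0 < inner ℝ (st f ω.1 (vel e ω.2.1) ω.2.2 k).2
        (gradient f (st f ω.1 (vel e ω.2.1) ω.2.2 (k + 1)).1) ∧
      ∀ r : ℚ, 0 ≤ r → r ≤ 1 → f ((st f ω.1 (vel e ω.2.1) ω.2.2 k).1 +
        ((r : ℝ) * ω.2.2 k) • (st f ω.1 (vel e ω.2.1) ω.2.2 k).2) ≤ 0) ∧
    (∀ k, 0 < k → k < n → (Cyl V f (st f ω.1 (vel e ω.2.1) ω.2.2 k).1 ∨
      Cyl Vᗮ f (st f ω.1 (vel e ω.2.1) ω.2.2 k).1)) ∧
    (st f ω.1 (vel e ω.2.1) ω.2.2 n).1 = ω.1 ∧ ∀ k, n ≤ k → ω.2.2 k = 0}

/-- The coordinates. -/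
noncomputable def co {V : Submodule ℝ E} (e : V) (ν : E)
    (ω : E × ((ℝ ∙ e)ᗮ × Vᗮ) × (ℕ → ℝ)) : ((ℝ ∙ ν)ᗮ × (ℝ ∙ e)ᗮ) × Vᗮ :=
  (((ℝ ∙ ν)ᗮ.orthogonalProjection ω.1, ω.2.1.1), ω.2.1.2)

theorem path_of {V : Submodule ℝ E} {e : V} {f : E → ℝ} {c : E} {r : ℝ} {n : ℕ}
    {ω : E × ((ℝ ∙ e)ᗮ × Vᗮ) × (ℕ → ℝ)} (h : ω ∈ TS e f c r n) :
    Path f n (fun k => (st f ω.1 (vel e ω.2.1) ω.2.2 k).1)
      (fun k => (st f ω.1 (vel e ω.2.1) ω.2.2 k).2) ω.2.2 := by
  intro k hk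
  obtain ⟨-, -, -, h4, -, -, -⟩ := h
  obtain ⟨a1, a2, a3, a4⟩ := h4 k hk
  exact ⟨rfl, rfl, a1, a3.ne'⟩

theorem proj_eq {f : E → ℝ} (hf : ContDiff ℝ 2 f) {c ν : E} {r : ℝ}
    (hU : ∀ x ∈ Metric.ball c r, inner ℝ ν (gradient f x) ≠ 0) {q q' : E}
    (hq : q ∈ Metric.ball c r) (hq' : q' ∈ Metric.ball c r) (hfq : f q = 0) (hfq' : f q' = 0)
    (h : (ℝ ∙ ν)ᗮ.orthogonalProjection q = (ℝ ∙ ν)ᗮ.orthogonalProjection q') : q = q' := by
  have h1 : (ℝ ∙ ν)ᗮ.orthogonalProjection (q' - q) = 0 := by rw [map_sub, h, sub_self]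
  have h2 : q' - q ∈ ((ℝ ∙ ν)ᗮ)ᗮ := (Submodule.orthogonalProjection_eq_zero_iff).1 h1
  rw [Submodule.orthogonal_orthogonal, Submodule.mem_span_singleton] at h2
  obtain ⟨t, ht⟩ := h2
  exact point_unique hf hU hq hq' hfq hfq' (t := t) (by rw [ht]; abel)

theorem inj_TS {V : Submodule ℝ E} {e : V} {f : E → ℝ} (hf : ContDiff ℝ 2 f) {c ν : E} {r : ℝ}
    {n : ℕ} (hU : ∀ x ∈ Metric.ball c r, inner ℝ ν (gradient f x) ≠ 0) :
    InjOn (co e ν) (TS e f c r n) := by
  rintro ⟨q, w, τ⟩ hω ⟨q', w', τ'⟩ hω' heq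
  have e1 := congrArg (fun z => z.1.1) heq
  have e2 := congrArg (fun z => z.1.2) heq
  have e3 := congrArg (fun z => z.2) heq
  simp only [co] at e1 e2 e3
  have hw : w = w' := Prod.ext e2 e3
  have hq : q = q' := proj_eq hf hU hω.1 hω'.1 hω.2.1 hω'.2.1 e1
  subst hw hq
  obtain ⟨-, -, -, h4, -, -, h7⟩ := hω
  obtain ⟨-, -, -, g4, -, -, g7⟩ := hω'
  simp only at h4 g4 h7 g7
  have key : ∀ k ≤ n, st f q (vel e w) τ k = st f q (vel e w) τ' k ∧ ∀ j < k, τ j = τ' j := by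
    intro k
    induction k with
    | zero => exact fun _ => ⟨rfl, fun j hj => absurd hj (Nat.not_lt_zero j)⟩
    | succ k ih =>
      intro hk
      obtain ⟨i1, i2⟩ := ih (by omega)
      obtain ⟨a1, a2, a3, a4⟩ := h4 k (by omega)
      obtain ⟨b1, b2, b3, b4⟩ := g4 k (by omega)
      have ht : τ k = τ' k := by
        rcases lt_trichotomy (τ k) (τ' k) with hlt | heq' | hlt
        · exfalso
          refine time_unique hf a2 hlt (p := (st f q (vel e w) τ k).1)
            (u := (st f q (vel e w) τ k).2) a1 a3 ?_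
          rw [i1]; exact b4
        · exact heq'
        · exfalso
          refine time_unique hf b2 hlt (p := (st f q (vel e w) τ' k).1)
            (u := (st f q (vel e w) τ' k).2) b1 b3 ?_
          rw [← i1]; exact a4
      refine ⟨?_, ?_⟩
      · simp only [st]
        rw [i1, ht]
      · intro j hj
        rcases Nat.lt_succ_iff_lt_or_eq.1 hj with h | h
        · exact i2 j h
        · rw [h]; exact ht
  have hτ : τ = τ' := by
    funext k
    by_cases hk : k < n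
    · exact (key n le_rfl).2 k hk
    · rw [h7 k (by omega), g7 k (by omega)]
  rw [hτ]

theorem av_ne {V : Submodule ℝ E} {e : V} (he : e ≠ 0) (w : (ℝ ∙ e)ᗮ) : av e w ≠ 0 := by
  intro h0
  unfold av at h0
  have h1 : e + (w : V) = 0 := by
    apply Subtype.ext
    exact h0
  have h2 : inner ℝ e (w : V) = 0 :=
    (Submodule.mem_orthogonal_singleton_iff_inner_right).1 w.2
  have h3 : inner ℝ e (e + (w : V)) = (0 : ℝ) := by rw [h1, inner_zero_right]
  rw [inner_add_right, h2, add_zero] at h3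
  exact he (inner_self_eq_zero.1 h3)

/-- Each fibre of the scaling is countable. -/
theorem countable_fibre {V : Submodule ℝ E} {e : V} (he : e ≠ 0) {f : E → ℝ}
    (hf : ContDiff ℝ 2 f) {c ν : E} {r : ℝ} {n : ℕ} (hn : 1 ≤ n)
    (hU : ∀ x ∈ Metric.ball c r, inner ℝ ν (gradient f x) ≠ 0)
    (x : (ℝ ∙ ν)ᗮ × (ℝ ∙ e)ᗮ) (y : Vᗮ) :
    {s : ℝ | s ∈ Ioo (1 : ℝ) 2 ∧ (x, s • y) ∈ co e ν '' (TS e f c r n)}.Countable := by
  have hex : ∀ s : ℝ, ∃ ω : E × ((ℝ ∙ e)ᗮ × Vᗮ) × (ℕ → ℝ),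
      (x, s • y) ∈ co e ν '' (TS e f c r n) → ω ∈ TS e f c r n ∧ co e ν ω = (x, s • y) := by
    intro s
    by_cases h : (x, s • y) ∈ co e ν '' (TS e f c r n)
    · obtain ⟨ω, h1, h2⟩ := h
      exact ⟨ω, fun _ => ⟨h1, h2⟩⟩
    · exact ⟨0, fun h' => absurd h' h⟩
  choose W hW using hex
  refine countable_of_sep _
    (fun s => fun k => (st f (W s).1 (vel e (W s).2.1) (W s).2.2 k).1) ?_
  rintro s ⟨hs, hsS⟩
  obtain ⟨hT, hco⟩ := hW s hsS
  have hs0 : s ≠ 0 := by
    intro h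
    have := hs.1
    rw [h] at this
    linarith
  have c1 : (ℝ ∙ ν)ᗮ.orthogonalProjection (W s).1 = x.1 := congrArg (fun z => z.1.1) hco
  have c2 : (W s).2.1.1 = x.2 := congrArg (fun z => z.1.2) hco
  have c3 : (W s).2.1.2 = s • y := congrArg (fun z => z.2) hco
  have hP := path_of hT
  obtain ⟨t1, t2, t3, t4, t5, t6, t7⟩ := hT
  have ha : av e x.2 ∈ V := Submodule.coe_mem _
  have hb : ((s • y : Vᗮ) : E) ∈ Vᗮ := Submodule.coe_mem _
  have hb0 : ((s • y : Vᗮ) : E) ≠ 0 := by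
    rw [← c3]
    intro h0
    exact t3 (Subtype.ext h0)
  have hu0 : vel e (W s).2.1 = av e x.2 + ((s • y : Vᗮ) : E) := by
    unfold vel
    rw [c2, c3]
  obtain ⟨U, hU1, hU2⟩ := uniq hf hn hP (fun k hk => (t4 k hk).2.1) t6
    (fun k hk hkn => t5 k hk hkn) ha hb (av_ne he _) hb0 hu0
  refine ⟨U, hU1, ?_⟩
  rintro s' ⟨hs', hsS'⟩ hmem
  obtain ⟨hT', hco'⟩ := hW s' hsS'
  have d1 : (ℝ ∙ ν)ᗮ.orthogonalProjection (W s').1 = x.1 := congrArg (fun z => z.1.1) hco'
  have d2 : (W s').2.1.1 = x.2 := congrArg (fun z => z.1.2) hco'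
  have d3 : (W s').2.1.2 = s' • y := congrArg (fun z => z.2) hco'
  have hP' := path_of hT'
  have hq : (W s').1 = (W s).1 :=
    proj_eq hf hU hT'.1 t1 hT'.2.1 t2 (by rw [d1, c1])
  have hu' : vel e (W s').2.1 = av e x.2 + (s' / s) • ((s • y : Vᗮ) : E) := by
    unfold vel
    rw [d2, d3]
    congr 1
    rw [Submodule.coe_smul, Submodule.coe_smul, smul_smul, div_mul_cancel₀ _ hs0]
  have h1 := hU2 _ hmem _ _ (s' / s) hP' hq hu' hT'.2.2.2.2.2.1
  rwa [div_eq_one_iff_eq hs0] at h1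

section meas
variable [MeasurableSpace E] [BorelSpace E]

theorem mp {Ω : Type*} [MeasurableSpace Ω] {p : Ω → Prop} (h : MeasurableSet {ω | p ω}) :
    Measurable p := measurableSet_setOf.1 h

theorem meas_TS {V : Submodule ℝ E} (e : V) {f : E → ℝ} (hf : ContDiff ℝ 2 f) (c : E) (r : ℝ)
    (n : ℕ) : MeasurableSet (TS e f c r n) := by
  have hq : Measurable (fun ω : E × ((ℝ ∙ e)ᗮ × Vᗮ) × (ℕ → ℝ) => ω.1) := measurable_fst
  have hv : Measurable (fun ω : E × ((ℝ ∙ e)ᗮ × Vᗮ) × (ℕ → ℝ) => vel e ω.2.1) := by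
    have : Continuous (fun w : (ℝ ∙ e)ᗮ × Vᗮ => vel e w) := by
      unfold vel av
      fun_prop
    exact this.measurable.comp (measurable_fst.comp measurable_snd)
  have hτ : ∀ k, Measurable (fun ω : E × ((ℝ ∙ e)ᗮ × Vᗮ) × (ℕ → ℝ) => ω.2.2 k) := fun k =>
    (measurable_pi_apply k).comp (measurable_snd.comp measurable_snd)
  have hP := fun k => (meas_st hf hq hv hτ k).1
  have hV := fun k => (meas_st hf hq hv hτ k).2
  have hfm : Measurable f := hf.continuous.measurable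
  have hg := meas_grad hf
  unfold TS
  refine Measurable.setOf ?_
  refine Measurable.and (mp (hq Metric.isOpen_ball.measurableSet)) ?_
  refine Measurable.and (mp (measurableSet_eq_fun (hfm.comp hq) measurable_const)) ?_
  refine Measurable.and (Measurable.not (mp (measurableSet_eq_fun
    (measurable_snd.comp (measurable_fst.comp measurable_snd)) measurable_const))) ?_
  refine Measurable.and (Measurable.forall fun k => Measurable.imp measurable_const ?_) ?_
  · refine Measurable.and (mp (measurableSet_eq_fun (hfm.comp (hP (k + 1))) measurable_const)) ?_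
    refine Measurable.and (mp (measurableSet_lt measurable_const (hτ k))) ?_
    refine Measurable.and (mp (measurableSet_lt measurable_const
      ((hV k).inner (hg.comp (hP (k + 1)))))) ?_
    refine Measurable.forall fun r => Measurable.imp measurable_const
      (Measurable.imp measurable_const (mp (measurableSet_le ?_ measurable_const)))
    exact hfm.comp ((hP k).add ((measurable_const.mul (hτ k)).smul (hV k)))
  refine Measurable.and (Measurable.forall fun k => Measurable.imp measurable_const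
    (Measurable.imp measurable_const (Measurable.or ?_ ?_))) ?_
  · exact mp (hP k (isOpen_cyl V f).measurableSet)
  · exact mp (hP k (isOpen_cyl Vᗮ f).measurableSet)
  refine Measurable.and (mp (measurableSet_eq_fun (hP n) hq)) ?_
  exact Measurable.forall fun k => Measurable.imp measurable_const
    (mp (measurableSet_eq_fun (hτ k) measurable_const))

theorem meas_co {V : Submodule ℝ E} (e : V) (ν : E) : Measurable (co e ν) := by
  unfold co
  refine Measurable.prodMk (Measurable.prodMk ?_ ?_) ?_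
  · exact ((ℝ ∙ ν)ᗮ.orthogonalProjection.continuous.measurable).comp measurable_fst
  · exact measurable_fst.comp (measurable_fst.comp measurable_snd)
  · exact measurable_snd.comp (measurable_fst.comp measurable_snd)

/-- The coordinates of the returning trajectories form a null set. -/
theorem null_co {V : Submodule ℝ E} {e : V} (he : e ≠ 0) {f : E → ℝ}
    (hf : ContDiff ℝ 2 f) {c ν : E} {r : ℝ} {n : ℕ} (hn : 1 ≤ n)
    (hU : ∀ x ∈ Metric.ball c r, inner ℝ ν (gradient f x) ≠ 0)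
    (μ : Measure (((ℝ ∙ ν)ᗮ × (ℝ ∙ e)ᗮ) × Vᗮ)) [μ.IsAddHaarMeasure] :
    μ (co e ν '' (TS e f c r n)) = 0 := by
  have i1 := FiniteDimensional.proper_real E
  have i2 := FiniteDimensional.proper_real (ℝ ∙ e)ᗮ
  have i3 := FiniteDimensional.proper_real Vᗮ
  refine null_scaling μ ?_ (countable_fibre he hf hn hU)
  exact (meas_TS e hf c r n).image_of_measurable_injOn (meas_co e ν) (inj_TS hf hU)

end meas

end Pool.Agent.Q222.CY
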