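import Pool.Agent.Q222.CY.Main

/-!
# All splittings at once
-/

set_option autoImplicit false
set_option linter.unusedSectionVars false
set_option linter.deprecated false

open Set Function Topology Filter MeasureTheory
open scoped NNReal ENNReal

namespace Pool.Agent.Q222.CY

open Pool.Agent.Y322.IV

variable {E : Type} [NormedAddCommGroup E] [InnerProductSpace ℝ E] [FiniteDimensional ℝ E]

theorem Cyl.mono {V W : Submodule ℝ E} {f : E → ℝ} {q : E} (h : Cyl V f q) (hWV : W ≤ V) :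
    Cyl W f q := by
  obtain ⟨r, hr, H⟩ := h
  exact ⟨r, hr, fun x hx y hy hxy hf => H x hx y hy (hWV hxy) hf⟩

theorem cyl_bot (f : E → ℝ) (q : E) : Cyl (⊥ : Submodule ℝ E) f q := by
  refine ⟨1, one_pos, fun x _ y _ hxy hf => ?_⟩
  rw [Submodule.mem_bot, sub_eq_zero] at hxy
  rw [← hxy]; exact hf

theorem sum_bound (V W : Submodule ℝ E) : ∃ C : ℝ, 0 ≤ C ∧ ∀ z ∈ V ⊔ W, ∃ v ∈ V, ∃ w ∈ W,
    z = v + w ∧ ‖v‖ ≤ C * ‖z‖ := by
  set T : (V × W) →ₗ[ℝ] E := V.subtype.coprod W.subtype with hT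
  obtain ⟨g, hg⟩ := (T.rangeRestrict).exists_rightInverse_of_surjective
    (LinearMap.range_rangeRestrict T)
  set G := LinearMap.toContinuousLinearMap g with hG
  refine ⟨‖G‖, G.opNorm_nonneg, fun z hz => ?_⟩
  have hz' : z ∈ LinearMap.range T := by
    rw [Submodule.mem_sup] at hz
    obtain ⟨v, hv, w, hw, rfl⟩ := hz
    exact ⟨(⟨v, hv⟩, ⟨w, hw⟩), by simp [hT]⟩
  set y := g ⟨z, hz'⟩ with hy
  have h1 : T.rangeRestrict y = ⟨z, hz'⟩ := by
    have := congrArg (fun L => L ⟨z, hz'⟩) hg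
    exact this
  have h2 : T y = z := congrArg Subtype.val h1
  refine ⟨y.1, y.1.2, y.2, y.2.2, ?_, ?_⟩
  · rw [← h2]; simp [hT]
  · have h3 : ‖G ⟨z, hz'⟩‖ ≤ ‖G‖ * ‖(⟨z, hz'⟩ : LinearMap.range T)‖ := G.le_opNorm _
    have h4 : ‖y.1‖ ≤ ‖y‖ := norm_fst_le y
    calc ‖((y.1 : V) : E)‖ = ‖y.1‖ := rfl
      _ ≤ ‖y‖ := h4
      _ ≤ ‖G‖ * ‖z‖ := h3

theorem Cyl.sup {V W : Submodule ℝ E} {f : E → ℝ} {q : E} (hV : Cyl V f q) (hW : Cyl W f q) :
    Cyl (V ⊔ W) f q := by
  obtain ⟨r1, hr1, H1⟩ := hV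
  obtain ⟨r2, hr2, H2⟩ := hW
  obtain ⟨C, hC, HC⟩ := sum_bound V W
  set r := min r1 r2 with hr
  have hr0 : 0 < r := lt_min hr1 hr2
  have hC1 : 0 < 1 + 2 * C := by linarith
  refine ⟨r / (1 + 2 * C), div_pos hr0 hC1, fun x hx y hy hxy hf => ?_⟩
  obtain ⟨v, hv, w, hw, hz, hn⟩ := HC _ hxy
  rw [Metric.mem_ball] at hx hy
  have hle : r / (1 + 2 * C) ≤ r := div_le_self hr0.le (by linarith)
  have hxy2 : ‖x - y‖ ≤ 2 * (r / (1 + 2 * C)) := by
    rw [← dist_eq_norm]
    have := dist_triangle x q y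
    rw [dist_comm q y] at this
    linarith
  have hv2 : ‖v‖ ≤ C * (2 * (r / (1 + 2 * C))) := hn.trans (mul_le_mul_of_nonneg_left hxy2 hC)
  have hmid : dist (x - v) q < r := by
    have h1 : dist (x - v) q ≤ dist (x - v) x + dist x q := dist_triangle _ _ _
    have h2 : dist (x - v) x = ‖v‖ := by
      rw [dist_eq_norm]
      have : x - v - x = -v := by abel
      rw [this, norm_neg]
    rw [h2] at h1
    have h3 : C * (2 * (r / (1 + 2 * C))) + r / (1 + 2 * C) = r := by
      field_simp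
      ring
    linarith
  have hxr : dist x q < r := by linarith
  have hyr : dist y q < r := by linarith
  have f1 : f (x - v) = 0 := by
    refine H1 x (Metric.mem_ball.2 (hxr.trans_le (min_le_left _ _))) (x - v)
      (Metric.mem_ball.2 (hmid.trans_le (min_le_left _ _))) ?_ hf
    have : x - (x - v) = v := by abel
    rw [this]; exact hv
  refine H2 (x - v) (Metric.mem_ball.2 (hmid.trans_le (min_le_right _ _))) y
    (Metric.mem_ball.2 (hyr.trans_le (min_le_right _ _))) ?_ f1
  have : x - v - y = w := by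
    have : x - v - y = (x - y) - v := by abel
    rw [this, hz]; abel
  rw [this]; exact hw

/-- There is a largest subspace along which the boundary is cylindrical at `q`. -/
theorem exists_max (f : E → ℝ) (q : E) : ∃ L : Submodule ℝ E, Cyl L f q ∧
    ∀ W : Submodule ℝ E, Cyl W f q → W ≤ L := by
  set S : Set ℕ := {m | ∃ W : Submodule ℝ E, Cyl W f q ∧ Module.finrank ℝ W = m} with hS
  have hne : S.Nonempty := ⟨_, ⊥, cyl_bot f q, rfl⟩
  have hbdd : BddAbove S := by
    refine ⟨Module.finrank ℝ E, ?_⟩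
    rintro m ⟨W, -, rfl⟩
    exact Submodule.finrank_le W
  obtain ⟨L, hL, hL2⟩ := Nat.sSup_mem hne hbdd
  refine ⟨L, hL, fun W hW => ?_⟩
  have h1 : Module.finrank ℝ (L ⊔ W : Submodule ℝ E) ≤ Module.finrank ℝ L := by
    rw [hL2]
    exact le_csSup hbdd ⟨_, hL.sup hW, rfl⟩
  have h2 : L = L ⊔ W := Submodule.eq_of_le_of_finrank_le le_sup_left h1
  rw [h2]
  exact le_sup_right

/-- The largest subspace along which the boundary is cylindrical. -/
noncomputable def Lmax (f : E → ℝ) (q : E) : Submodule ℝ E := (exists_max f q).choose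

theorem cyl_Lmax (f : E → ℝ) (q : E) : Cyl (Lmax f q) f q := (exists_max f q).choose_spec.1

theorem le_Lmax {f : E → ℝ} {q : E} {W : Submodule ℝ E} (h : Cyl W f q) : W ≤ Lmax f q :=
  (exists_max f q).choose_spec.2 W h

theorem countable_Lmax (f : E → ℝ) : (range (Lmax f)).Countable := by
  have hcov : range (Lmax f) ⊆ ⋃ m : ℕ, {V | V ∈ range (Lmax f) ∧ Module.finrank ℝ V = m} :=
    fun V hV => mem_iUnion.2 ⟨_, hV, rfl⟩
  refine (countable_iUnion fun m => ?_).mono hcov
  have hch : ∀ V : Submodule ℝ E, ∃ q : E, V ∈ range (Lmax f) → Lmax f q = V := by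
    intro V
    by_cases h : V ∈ range (Lmax f)
    · obtain ⟨q, hq⟩ := h
      exact ⟨q, fun _ => hq⟩
    · exact ⟨0, fun h' => absurd h' h⟩
  choose F hF using hch
  refine countable_of_sep _ F ?_
  rintro V ⟨hV, hVm⟩
  refine ⟨{q | Cyl V f q}, (isOpen_cyl V f).mem_nhds ?_, ?_⟩
  · have := cyl_Lmax f (F V)
    rw [hF V hV] at this
    exact this
  · rintro W ⟨hW, hWm⟩ hmem
    have h1 : V ≤ Lmax f (F W) := le_Lmax hmem
    rw [hF W hW] at h1
    exact (Submodule.eq_of_le_of_finrank_le h1 (by rw [hVm, hWm])).symm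

/-- The finite intersections of these subspaces. -/
def Fam (f : E → ℝ) : Set (Submodule ℝ E) :=
  range fun s : Finset (range (Lmax f)) => s.inf fun V => (V : Submodule ℝ E)

theorem countable_Fam (f : E → ℝ) : (Fam f).Countable := by
  have : Countable (range (Lmax f)) := (countable_Lmax f).to_subtype
  exact countable_range _

theorem exists_fam (f : E → ℝ) (p : ℕ → E) (s : Finset ℕ) (V : Submodule ℝ E)
    (h : ∀ k ∈ s, Cyl V f (p k)) : ∃ A ∈ Fam f, V ≤ A ∧ ∀ k ∈ s, Cyl A f (p k) := by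
  classical
  set t : Finset (range (Lmax f)) := s.image fun k => ⟨Lmax f (p k), mem_range_self _⟩ with ht
  refine ⟨t.inf fun V => (V : Submodule ℝ E), ⟨t, rfl⟩, ?_, ?_⟩
  · refine Finset.le_inf fun W hW => ?_
    obtain ⟨k, hk, rfl⟩ := Finset.mem_image.1 hW
    exact le_Lmax (h k hk)
  · intro k hk
    refine (cyl_Lmax f (p k)).mono ?_
    have hm : (⟨Lmax f (p k), mem_range_self _⟩ : range (Lmax f)) ∈ t :=
      Finset.mem_image_of_mem _ hk
    exact Finset.inf_le (f := fun V : range (Lmax f) => (V : Submodule ℝ E)) hm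

/-- The phase points whose trajectory comes back to its first bounce point, for which there is a
splitting of the space such that all the bounces in between are at points where the boundary is
cylindrical along one of the two subspaces. -/
def LoopAll (f : E → ℝ) : Set (E × E) :=
  {x | ∃ V : Submodule ℝ E, V ≠ ⊥ ∧ V ≠ ⊤ ∧ x ∈ LoopC V f}

theorem not_cyl_top {f : E → ℝ} (hf : ContDiff ℝ 2 f) {q : E} (hq : f q = 0)
    (hg : gradient f q ≠ 0) : ¬ Cyl (⊤ : Submodule ℝ E) f q := by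
  intro h
  have := grad_orth hf h hq
  rw [Submodule.top_orthogonal_eq_bot, Submodule.mem_bot] at this
  exact hg this

theorem LoopAll_subset {f : E → ℝ} (hf : ContDiff ℝ 2 f) :
    LoopAll f ⊆ ⋃ A ∈ {A | A ∈ Fam f ∧ A ≠ ⊥ ∧ A ≠ ⊤}, LoopC A f := by
  classical
  rintro x ⟨V, hV, hV', n, p, u, hn, H, hp, hu, hret, hC⟩
  set s1 : Finset ℕ := (Finset.range n).filter fun k => 0 < k ∧ Cyl V f (p k) with hs1
  obtain ⟨A, hA, hVA, hAc⟩ := exists_fam f p s1 V (fun k hk => (Finset.mem_filter.1 hk).2.2)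
  have hVA' : Aᗮ ≤ Vᗮ := Submodule.orthogonal_le hVA
  have hAb : A ≠ ⊥ := fun h => hV (le_bot_iff.1 (h ▸ hVA))
  by_cases hAt : A = ⊤
  · -- all the bounces are cylindrical along `Vᗮ`
    have hno : ∀ k, 0 < k → k < n → Cyl Vᗮ f (p k) := by
      intro k hk hkn
      rcases hC k hk hkn with h | h
      · exfalso
        have := hAc k (Finset.mem_filter.2 ⟨Finset.mem_range.2 hkn, hk, h⟩)
        rw [hAt] at this
        exact not_cyl_top hf (H.1 k hkn.le).1 (H.grad_ne hkn.le) this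
      · exact h
    set s2 : Finset ℕ := (Finset.range n).filter fun k => 0 < k with hs2
    obtain ⟨B, hB, hVB, hBc⟩ := exists_fam f p s2 Vᗮ (fun k hk =>
      hno k (Finset.mem_filter.1 hk).2 (Finset.mem_range.1 (Finset.mem_filter.1 hk).1))
    have hBb : B ≠ ⊥ := by
      intro h
      rw [h, le_bot_iff] at hVB
      exact hV' ((Submodule.orthogonal_eq_bot_iff).1 hVB)
    have hn2 : 1 < n := by
      rcases Nat.lt_or_ge 1 n with h | h
      · exact h
      · exfalso
        have h1 : n = 1 := by omega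
        subst h1
        obtain ⟨t, ht, hpt, -⟩ := (H.2 0 Nat.one_pos).1
        simp only [zero_add] at hpt
        rw [hret] at hpt
        have h2 : t • u 0 = 0 := by
          have : p 0 + t • u 0 = p 0 + 0 := by rw [add_zero]; exact hpt.symm
          exact add_left_cancel this
        rcases smul_eq_zero.1 h2 with h3 | h3
        · exact ht.ne' h3
        · have := (H.1 0 (Nat.zero_le 1)).2.1
          rw [h3, norm_zero] at this
          exact zero_ne_one this
    have hBt : B ≠ ⊤ := by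
      intro h
      have := hBc 1 (Finset.mem_filter.2 ⟨Finset.mem_range.2 hn2, Nat.one_pos⟩)
      rw [h] at this
      exact not_cyl_top hf (H.1 1 hn2.le).1 (H.grad_ne hn2.le) this
    refine mem_iUnion₂.2 ⟨B, ⟨hB, hBb, hBt⟩, n, p, u, hn, H, hp, hu, hret, fun k hk hkn => ?_⟩
    exact Or.inl (hBc k (Finset.mem_filter.2 ⟨Finset.mem_range.2 hkn, hk⟩))
  · refine mem_iUnion₂.2 ⟨A, ⟨hA, hAb, hAt⟩, n, p, u, hn, H, hp, hu, hret, fun k hk hkn => ?_⟩
    rcases hC k hk hkn with h | h
    · exact Or.inl (hAc k (Finset.mem_filter.2 ⟨Finset.mem_range.2 hkn, hk, h⟩))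
    · exact Or.inr (h.mono hVA')

/-- The phase points whose trajectory meets some boundary point twice, all the bounces in between
being cylindrical along one of two complementary subspaces. -/
def TwiceAll (f : E → ℝ) : Set (E × E) :=
  {x | ∃ (n : ℕ) (p u : ℕ → E), Traj f n p u ∧ p 0 = x.1 ∧ u 0 = x.2 ∧
    ∃ k l : ℕ, k < l ∧ l ≤ n ∧ p k = p l ∧ ∃ V : Submodule ℝ E, V ≠ ⊥ ∧ V ≠ ⊤ ∧
      ∀ j, k < j → j < l → Cyl V f (p j) ∨ Cyl Vᗮ f (p j)}

theorem TwiceAll_subset (f : E → ℝ) : TwiceAll f ⊆ ⋃ k : ℕ, Back f (LoopAll f) k := by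
  rintro ⟨q, v⟩ ⟨n, p, u, H, hp, hu, k, l, hkl, hln, hpkl, V, hV, hV', hC⟩
  simp only at hp hu
  have hk : (p k, u k) ∈ LoopAll f := by
    obtain ⟨m, rfl⟩ : ∃ m, l = m + k := ⟨l - k, by omega⟩
    have H1 : Traj f m (fun i => p (i + k)) (fun i => u (i + k)) := (H.mono hln).shift
    refine ⟨V, hV, hV', m, _, _, by omega, H1, ?_, ?_, ?_, ?_⟩
    · simp
    · simp
    · simpa using hpkl.symm
    · intro j hj hjm
      exact hC (j + k) (by omega) (by omega)
  have := H.mem_back (A := LoopAll f) (k := k) k (by omega) le_rfl hk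
  rw [Nat.sub_self, hp, hu] at this
  exact mem_iUnion.2 ⟨k, this⟩

section meas
variable [MeasurableSpace E] [BorelSpace E]

theorem null_TwiceAll {f : E → ℝ} (hf : ContDiff ℝ 2 f) {d : ℕ} (hE : Module.finrank ℝ E = d) :
    μH[((2 * d - 2 : ℕ) : ℝ)] (TwiceAll f) = 0 := by
  have hL : μH[((2 * d - 2 : ℕ) : ℝ)] (LoopAll f) = 0 := by
    refine measure_mono_null (LoopAll_subset hf) ?_
    refine (measure_biUnion_null_iff ((countable_Fam f).mono fun A hA => hA.1)).2 ?_
    rintro A ⟨-, hA, hA'⟩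
    exact null_LoopC hf hE hA hA'
  exact measure_mono_null (TwiceAll_subset f)
    (measure_iUnion_null fun k => null_Back hf (Nat.cast_nonneg _) _ hL k)

end meas

/-- Product tables: every regular boundary point is cylindrical. -/
theorem cyl_of_prod {V : Submodule ℝ E} {f g h : E → ℝ} (hg : ContDiff ℝ 2 g)
    (hh : ContDiff ℝ 2 h) (hfg : ∀ x, f x = g x * h x) (hgV : ∀ x, ∀ w ∈ Vᗮ, g (x + w) = g x)
    (hhV : ∀ x, ∀ w ∈ V, h (x + w) = h x) {q : E} (hgr : gradient f q ≠ 0) :
    Cyl V f q ∨ Cyl Vᗮ f q := by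
  have aux : ∀ (W : Submodule ℝ E) (a b : E → ℝ), Continuous b → (∀ x, f x = a x * b x) →
      (∀ x, ∀ w ∈ W, a (x + w) = a x) → b q ≠ 0 → Cyl W f q := by
    intro W a b hb hab haW hbq
    obtain ⟨r, hr, hball⟩ := Metric.isOpen_iff.1 (isOpen_ne_fun hb continuous_const) q hbq
    refine ⟨r, hr, fun x hx y hy hxy hfx => ?_⟩
    have h1 : b x ≠ 0 := hball hx
    rw [hab] at hfx
    have h2 : a x = 0 := (mul_eq_zero.1 hfx).resolve_right h1
    have h3 : a y = a x := by
      have := haW x (y - x) (by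
        have : y - x = -(x - y) := by abel
        rw [this]; exact W.neg_mem hxy)
      rwa [add_sub_cancel] at this
    rw [hab, h3, h2, zero_mul]
  by_cases h1 : h q = 0
  · by_cases h2 : g q = 0
    · exfalso
      apply hgr
      refine ext_inner_left ℝ fun w => ?_
      rw [inner_zero_right, ← Pool.Agent.Y322.IV.fderiv_eq_inner]
      have hd : HasFDerivAt f (g q • fderiv ℝ h q + h q • fderiv ℝ g q) q := by
        have h3 := ((hg.differentiable (by norm_num) q).hasFDerivAt).mul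
          ((hh.differentiable (by norm_num) q).hasFDerivAt)
        have e : f = fun x => g x * h x := funext hfg
        rw [e]
        exact h3
      rw [hd.fderiv, h1, h2]
      simp
    · left
      exact aux V h g hg.continuous (fun x => by rw [hfg, mul_comm]) hhV h2
  · right
    exact aux Vᗮ g h hh.continuous hfg hgV h1

end Pool.Agent.Q222.CY
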