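import Pool.Agent.Q222.CY.Uniq

/-!
# The trajectories with given times between the bounces
-/

set_option autoImplicit false
set_option linter.unusedSectionVars false
set_option linter.deprecated false

open Set Function Topology Filter MeasureTheory

namespace Pool.Agent.Q222.CY

variable {E : Type} [NormedAddCommGroup E] [InnerProductSpace ℝ E] [FiniteDimensional ℝ E]

/-- The bounce points and velocities of the trajectory with times `τ k`. -/
noncomputable def st (f : E → ℝ) (q v : E) (τ : ℕ → ℝ) : ℕ → E × E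
  | 0 => (q, v)
  | k + 1 => ((st f q v τ k).1 + τ k • (st f q v τ k).2,
      rf (gradient f ((st f q v τ k).1 + τ k • (st f q v τ k).2)) (st f q v τ k).2)

theorem hasDerivAt_line' {f : E → ℝ} (hf : ContDiff ℝ 2 f) (q w : E) (s : ℝ) :
    HasDerivAt (fun t : ℝ => f (q + t • w)) (inner ℝ w (gradient f (q + s • w))) s := by
  have h5 : HasDerivAt (fun τ : ℝ => q + τ • w) w s := by
    have := ((hasDerivAt_id s).smul_const w).const_add q
    simpa using this
  have h6 : HasFDerivAt f (fderiv ℝ f (q + s • w)) (q + s • w) :=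
    (hf.differentiable (by norm_num) _).hasFDerivAt
  have h7 := HasFDerivAt.comp_hasDerivAt s h6 h5
  rw [← Pool.Agent.Y322.IV.fderiv_eq_inner]
  exact h7

/-- The first transversal exit time is unique. -/
theorem time_unique {f : E → ℝ} (hf : ContDiff ℝ 2 f) {p u : E} {a b : ℝ} (ha : 0 < a)
    (hab : a < b) (hfa : f (p + a • u) = 0) (hi : 0 < inner ℝ u (gradient f (p + a • u)))
    (hneg : ∀ r : ℚ, 0 ≤ r → r ≤ 1 → f (p + ((r : ℝ) * b) • u) ≤ 0) : False := by
  have hb : 0 < b := ha.trans hab
  have hd := hasDerivAt_line' hf p u a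
  have hs := hasDerivAt_iff_tendsto_slope.1 hd
  have hev := hs.eventually (lt_mem_nhds hi)
  rw [eventually_nhdsWithin_iff, Metric.eventually_nhds_iff] at hev
  obtain ⟨ε, hε, hev⟩ := hev
  have h1 : a / b < min (a + ε) b / b := by
    apply div_lt_div_of_pos_right _ hb
    exact lt_min (by linarith) hab
  obtain ⟨r, hr1, hr2⟩ := exists_rat_btwn h1
  have hr3 : a < r * b := (div_lt_iff₀ hb).1 hr1
  have hr4 : r * b < min (a + ε) b := (lt_div_iff₀ hb).1 hr2
  have hr5 : (r : ℝ) * b < a + ε := lt_of_lt_of_le hr4 (min_le_left _ _)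
  have hr6 : (r : ℝ) * b < b := lt_of_lt_of_le hr4 (min_le_right _ _)
  have hr0 : 0 ≤ (r : ℝ) := by
    by_contra hneg'
    push Not at hneg'
    nlinarith
  have hr1' : (r : ℝ) ≤ 1 := by
    by_contra hc
    push Not at hc
    nlinarith
  have h2 := hneg r (by exact_mod_cast hr0) (by exact_mod_cast hr1')
  have h3 := hev (y := r * b) (by rw [Real.dist_eq, abs_lt]; constructor <;> linarith)
    (by simp only [mem_compl_iff, mem_singleton_iff]; exact hr3.ne')
  rw [slope_def_field, hfa, sub_zero] at h3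
  have h4 : 0 < r * b - a := by linarith
  have h5 : f (p + ((r : ℝ) * b) • u) = (f (p + ((r : ℝ) * b) • u) / (r * b - a)) * (r * b - a) := by
    field_simp
  have h6 : 0 < f (p + ((r : ℝ) * b) • u) := by
    rw [h5]; exact mul_pos h3 h4
  linarith

/-- A boundary point in a small ball is determined by its projection. -/
theorem point_unique {f : E → ℝ} (hf : ContDiff ℝ 2 f) {c ν : E} {r : ℝ}
    (hU : ∀ x ∈ Metric.ball c r, inner ℝ ν (gradient f x) ≠ 0) {q q' : E}
    (hq : q ∈ Metric.ball c r) (hq' : q' ∈ Metric.ball c r) (hfq : f q = 0) (hfq' : f q' = 0)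
    {t : ℝ} (ht : q' = q + t • ν) : q = q' := by
  by_cases ht0 : t = 0
  · rw [ht, ht0, zero_smul, add_zero]
  exfalso
  have hg : ∀ s : ℝ, HasDerivAt (fun s : ℝ => f (q + s • (t • ν)))
      (inner ℝ (t • ν) (gradient f (q + s • (t • ν)))) s := fun s => hasDerivAt_line' hf q _ s
  have hcont : ContinuousOn (fun s : ℝ => f (q + s • (t • ν))) (Icc 0 1) :=
    fun s _ => (hg s).continuousAt.continuousWithinAt
  obtain ⟨s, hs, hs0⟩ := exists_hasDerivAt_eq_zero (f := fun s : ℝ => f (q + s • (t • ν)))
    (f' := fun s => inner ℝ (t • ν) (gradient f (q + s • (t • ν)))) (zero_lt_one' ℝ) hcont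
    (by simp only [zero_smul, add_zero, one_smul]; rw [← ht, hfq, hfq']) (fun s _ => hg s)
  rw [real_inner_smul_left] at hs0
  rcases mul_eq_zero.1 hs0 with h | h
  · exact ht0 h
  · refine hU _ ?_ h
    have hconv := convex_ball c r
    have := hconv.add_smul_sub_mem hq hq' (t := s) ⟨hs.1.le, hs.2.le⟩
    have e : q' - q = t • ν := by rw [ht]; abel
    rwa [e] at this

section meas
variable [MeasurableSpace E] [BorelSpace E]

theorem meas_rf {Ω : Type*} [MeasurableSpace Ω] {G u : Ω → E} (hG : Measurable G)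
    (hu : Measurable u) : Measurable (fun ω => rf (G ω) (u ω)) := by
  unfold rf
  have h1 : Measurable (fun ω => (inner ℝ (u ω) (G ω) : ℝ)) := hu.inner hG
  exact hu.sub (((measurable_const.mul h1).div ((hG.norm).pow_const 2)).smul hG)

theorem meas_grad {f : E → ℝ} (hf : ContDiff ℝ 2 f) : Measurable (gradient f) := by
  have h2 : Continuous (fderiv ℝ f) := hf.continuous_fderiv (by norm_num)
  have h3 : gradient f = fun x => (InnerProductSpace.toDual ℝ E).symm (fderiv ℝ f x) := rfl
  rw [h3]
  exact ((InnerProductSpace.toDual ℝ E).symm.continuous.comp h2).measurable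

theorem meas_st {Ω : Type*} [MeasurableSpace Ω] {f : E → ℝ} (hf : ContDiff ℝ 2 f) {q v : Ω → E}
    {τ : Ω → ℕ → ℝ} (hq : Measurable q) (hv : Measurable v)
    (hτ : ∀ k, Measurable (fun ω => τ ω k)) (k : ℕ) :
    Measurable (fun ω => (st f (q ω) (v ω) (τ ω) k).1) ∧
      Measurable (fun ω => (st f (q ω) (v ω) (τ ω) k).2) := by
  induction k with
  | zero => exact ⟨hq, hv⟩
  | succ k ih =>
    have h1 : Measurable (fun ω => (st f (q ω) (v ω) (τ ω) k).1 +
        τ ω k • (st f (q ω) (v ω) (τ ω) k).2) := ih.1.add ((hτ k).smul ih.2)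
    exact ⟨h1, meas_rf ((meas_grad hf).comp h1) ih.2⟩

end meas

end Pool.Agent.Q222.CY
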