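import Pool.Agent.Q222.CY.Geo

/-!
# Cylindrical mirrors: local uniqueness of the ratio of the speeds
-/

set_option autoImplicit false
set_option linter.unusedSectionVars false

open Set Function Topology Filter

namespace Pool.Agent.Q222.CY

variable {E : Type} [NormedAddCommGroup E] [InnerProductSpace ℝ E] [FiniteDimensional ℝ E]

/-- `n` legs of a trajectory. -/
def Path (f : E → ℝ) (n : ℕ) (p u : ℕ → E) (τ : ℕ → ℝ) : Prop :=
  ∀ k < n, p (k + 1) = p k + τ k • u k ∧ u (k + 1) = rf (gradient f (p (k + 1))) (u k) ∧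
    f (p (k + 1)) = 0 ∧ inner ℝ (u k) (gradient f (p (k + 1))) ≠ 0

/-- Induction step, general form. -/
theorem ind_step {W : Submodule ℝ E} {f : E → ℝ} (hf : ContDiff ℝ 2 f) {n k : ℕ}
    {p' u' : ℕ → E} {τ' : ℕ → ℝ} (hP : Path f n p' u' τ') (hk : k + 1 < n) {x y : E}
    (hx : x ∈ W) (hy : y ∈ Wᗮ) (hu : u' k = x + y) (hx0 : x ≠ 0) (hC : Cyl Wᗮ f (p' (k + 1))) :
    ∃ x1 ∈ W, x1 ≠ 0 ∧ u' (k + 1) = x1 + y ∧
      ∃ U ∈ 𝓝 p', ∀ p ∈ U, ∀ (u : ℕ → E) (τ : ℕ → ℝ) (α β : ℝ), Path f n p u τ →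
        u k = α • x + β • y →
        p k - (∑ j ∈ Finset.range k, τ j) • u k = p' k - (∑ j ∈ Finset.range k, τ' j) • u' k →
        u (k + 1) = α • x1 + β • y ∧
        p (k + 1) - (∑ j ∈ Finset.range (k + 1), τ j) • u (k + 1) =
          p' (k + 1) - (∑ j ∈ Finset.range (k + 1), τ' j) • u' (k + 1) := by
  obtain ⟨h1, h2, h3, h4⟩ := hP k (by omega)
  rw [hu] at h4
  obtain ⟨hG, hr, δ, hδ, H⟩ := step hf hC h3 hx hy h4
  have hG0 : gradient f (p' (k + 1)) ≠ 0 := by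
    intro h0
    rw [h0, inner_zero_right] at h4
    exact h4 rfl
  refine ⟨rf (gradient f (p' (k + 1))) x, rf_mem hG hx, rf_ne hG0 hx0, ?_, ?_⟩
  · rw [h2, hu, hr]
  refine ⟨{p | dist (p (k + 1)) (p' (k + 1)) < δ}, ?_, ?_⟩
  · have hc : Tendsto (fun p : ℕ → E => p (k + 1)) (𝓝 p') (𝓝 (p' (k + 1))) :=
      (continuous_apply (k + 1)).tendsto p'
    exact hc (Metric.ball_mem_nhds _ hδ)
  intro p hp u τ α β hPp huk hoff
  obtain ⟨g1, g2, g3, g4⟩ := hPp k (by omega)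
  set c : E := p' k - (∑ j ∈ Finset.range k, τ' j) • u' k with hc
  have e1 : p' (k + 1) = c + (∑ j ∈ Finset.range (k + 1), τ' j) • (x + y) := by
    rw [h1, hc, Finset.sum_range_succ, ← hu, add_smul]; abel
  have e2 : p (k + 1) = c + (∑ j ∈ Finset.range (k + 1), τ j) • (α • x + β • y) := by
    rw [g1, ← hoff, Finset.sum_range_succ, ← huk, add_smul]; abel
  have hgp : gradient f (p (k + 1)) ≠ 0 := by
    intro h0
    rw [h0, inner_zero_right] at g4
    exact g4 rfl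
  obtain ⟨k1, k2⟩ := H c (p (k + 1)) _ _ α β e1 e2 g3 hgp hp
  have hu1 : u (k + 1) = α • rf (gradient f (p' (k + 1))) x + β • y := by
    rw [g2, huk, k2]
  refine ⟨hu1, ?_⟩
  rw [hu1, e2, h2, hu, hr, e1]
  rw [← k1]
  module

/-- **Local uniqueness.** A trajectory which returns to its starting point after bounces at
cylindrical mirrors cannot be deformed by a change of the ratio of the two speeds. -/
theorem uniq {V : Submodule ℝ E} {f : E → ℝ} (hf : ContDiff ℝ 2 f) {n : ℕ} (hn : 1 ≤ n)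
    {p' u' : ℕ → E} {τ' : ℕ → ℝ} (hP : Path f n p' u' τ') (hτ : ∀ k < n, 0 < τ' k)
    (hcl : p' n = p' 0) (hC : ∀ k, 0 < k → k < n → Cyl V f (p' k) ∨ Cyl Vᗮ f (p' k))
    {a b : E} (ha : a ∈ V) (hb : b ∈ Vᗮ) (ha0 : a ≠ 0) (hb0 : b ≠ 0) (hu : u' 0 = a + b) :
    ∃ U ∈ 𝓝 p', ∀ p ∈ U, ∀ (u : ℕ → E) (τ : ℕ → ℝ) (ρ : ℝ), Path f n p u τ → p 0 = p' 0 →
      u 0 = a + ρ • b → p n = p 0 → ρ = 1 := by
  have key : ∀ k < n, ∃ x ∈ V, ∃ y ∈ Vᗮ, x ≠ 0 ∧ y ≠ 0 ∧ u' k = x + y ∧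
      ∃ U ∈ 𝓝 p', ∀ p ∈ U, ∀ (u : ℕ → E) (τ : ℕ → ℝ) (ρ : ℝ), Path f n p u τ → p 0 = p' 0 →
        u 0 = a + ρ • b → u k = x + ρ • y ∧
        p k - (∑ j ∈ Finset.range k, τ j) • u k =
          p' k - (∑ j ∈ Finset.range k, τ' j) • u' k := by
    intro k
    induction k with
    | zero =>
      intro _
      refine ⟨a, ha, b, hb, ha0, hb0, hu, univ, univ_mem, ?_⟩
      intro p _ u τ ρ _ hp0 hu0
      exact ⟨hu0, by simp [hp0]⟩
    | succ k ih =>
      intro hk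
      obtain ⟨x, hx, y, hy, hx0, hy0, huk, U, hU, HU⟩ := ih (by omega)
      rcases hC (k + 1) (by omega) hk with hc | hc
      · have hc' : Cyl (Vᗮ)ᗮ f (p' (k + 1)) := by
          rw [Submodule.orthogonal_orthogonal]; exact hc
        have hx' : x ∈ (Vᗮ)ᗮ := by rw [Submodule.orthogonal_orthogonal]; exact hx
        obtain ⟨y1, hy1, hy10, hu1, U1, hU1, HU1⟩ :=
          ind_step hf hP hk hy hx' (by rw [huk, add_comm]) hy0 hc'
        refine ⟨x, hx, y1, hy1, hx0, hy10, by rw [hu1, add_comm], U ∩ U1, inter_mem hU hU1, ?_⟩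
        intro p hp u τ ρ hPp hp0 hu0
        obtain ⟨i1, i2⟩ := HU p hp.1 u τ ρ hPp hp0 hu0
        obtain ⟨j1, j2⟩ := HU1 p hp.2 u τ ρ 1 hPp (by rw [i1, one_smul, add_comm]) i2
        exact ⟨by rw [j1, one_smul, add_comm], j2⟩
      · obtain ⟨x1, hx1, hx10, hu1, U1, hU1, HU1⟩ := ind_step hf hP hk hx hy huk hx0 hc
        refine ⟨x1, hx1, y, hy, hx10, hy0, hu1, U ∩ U1, inter_mem hU hU1, ?_⟩
        intro p hp u τ ρ hPp hp0 hu0
        obtain ⟨i1, i2⟩ := HU p hp.1 u τ ρ hPp hp0 hu0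
        obtain ⟨j1, j2⟩ := HU1 p hp.2 u τ 1 ρ hPp (by rw [i1, one_smul]) i2
        exact ⟨by rw [j1, one_smul], j2⟩
  obtain ⟨m, rfl⟩ : ∃ m, n = m + 1 := ⟨n - 1, by omega⟩
  obtain ⟨x, hx, y, hy, hx0, hy0, huk, U, hU, HU⟩ := key m (by omega)
  refine ⟨U, hU, ?_⟩
  intro p hp u τ ρ hPp hp0 hu0 hcl'
  obtain ⟨i1, i2⟩ := HU p hp u τ ρ hPp hp0 hu0
  have e1 := (hP m (by omega)).1
  have e2 := (hPp m (by omega)).1
  set Θ' := ∑ j ∈ Finset.range (m + 1), τ' j with hΘ'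
  set Θ := ∑ j ∈ Finset.range (m + 1), τ j with hΘ
  have hΘpos : 0 < Θ' := Finset.sum_pos (fun j hj => hτ j (Finset.mem_range.1 hj)) ⟨0, by simp⟩
  have e3 : Θ • (x + ρ • y) = Θ' • (x + y) := by
    have h5 : p m + τ m • u m = p' m + τ' m • u' m := by
      rw [← e1, ← e2, hcl, hcl', hp0]
    rw [hΘ, hΘ', Finset.sum_range_succ, Finset.sum_range_succ, add_smul, add_smul, ← i1, ← huk]
    have h6 : (∑ j ∈ Finset.range m, τ j) • u m =
        p m - (p' m - (∑ j ∈ Finset.range m, τ' j) • u' m) := by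
      rw [← i2]; abel
    rw [h6]
    have h7 : τ m • u m = p' m + τ' m • u' m - p m := by
      rw [← h5]; abel
    rw [h7]; abel
  have hxy : inner ℝ x y = 0 := (Submodule.mem_orthogonal V y).1 hy x hx
  have hyx : inner ℝ y x = 0 := by rw [real_inner_comm]; exact hxy
  have e4 : Θ = Θ' := by
    have := congrArg (fun w => inner ℝ x w) e3
    simp only [inner_smul_right, inner_add_right, hxy, mul_zero, add_zero] at this
    have hxx : inner ℝ x x ≠ 0 := inner_self_ne_zero.2 hx0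
    exact mul_right_cancel₀ hxx this
  have e5 : Θ * ρ = Θ' := by
    have := congrArg (fun w => inner ℝ y w) e3
    simp only [inner_smul_right, inner_add_right, hyx, zero_add] at this
    have hyy : inner ℝ y y ≠ 0 := inner_self_ne_zero.2 hy0
    rw [← mul_assoc] at this
    exact mul_right_cancel₀ hyy this
  rw [e4] at e5
  have : Θ' * ρ = Θ' * 1 := by rw [e5, mul_one]
  exact mul_left_cancel₀ hΘpos.ne' this

end Pool.Agent.Q222.CY
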